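import Pool.Agent.H7.SLP.H5N
import Pool.Agent.H81.SLP.Ctx3
import Pool.Agent.H33.M5.AVM

/-!
# The path of windows: the heights in one window

The context of a window `w` consists of the coarse context `ctx … e H` and of the fine digits `fsh`
of the coefficients which are not pure powers of the time. The unknown numbers `vfi` are the fine
digits of the coefficients of the pure powers. The rows `unu` are the rows of the height of the own
sheet over the coarse label at the centre of the box.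
-/

set_option autoImplicit false

namespace Pool.PTH

open Finset Real MvPolynomial
open Pool.Agent.H49.Ent Pool.Agent.H32.Dense Pool.STK Pool.KA Pool.KSAT Pool.K2S Pool.PB
open Pool.KAF Pool.SLO Pool.SLP

variable {m J : ℕ}

/-- Pure powers of the time. -/
def Pur (i₁ : Fin m) (s : Fin m →₀ ℕ) : Prop := ∀ j, j ≠ i₁ → s j = 0

theorem pur_single (i₁ : Fin m) (n : ℕ) : Pur i₁ (Finsupp.single i₁ n) := fun j hj => by
  rw [Finsupp.single_apply, if_neg (Ne.symm hj)]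

theorem eq_single {i₁ : Fin m} {s : Fin m →₀ ℕ} (h : Pur i₁ s) :
    s = Finsupp.single i₁ (s i₁) := by
  ext j
  rw [Finsupp.single_apply]
  by_cases hj : i₁ = j
  · rw [if_pos hj, hj]
  · rw [if_neg hj]
    exact h j (Ne.symm hj)

theorem single_mem {K : ℕ} (i₁ : Fin m) {n : ℕ} (h : n ≤ K) : Finsupp.single i₁ n ∈ mons m K := by
  rw [mem_mons, Finsupp.sum_single_index rfl]
  exact h

theorem pnt_self (i₁ : Fin m) (τ : ℝ) : pnt i₁ (0 : Fin m → ℝ) 0 τ i₁ = τ := by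
  unfold pnt
  rw [if_pos rfl]

theorem pnt_ne (i₁ : Fin m) (τ : ℝ) {j : Fin m} (h : j ≠ i₁) :
    pnt i₁ (0 : Fin m → ℝ) 0 τ j = 0 := by
  unfold pnt
  rw [if_neg h]
  simp

/-- Only the pure powers count on the axis. -/
theorem sum_pure (K : ℕ) (i₁ : Fin m) (c : (Fin m →₀ ℕ) → ℝ) (τ : ℝ) :
    ∑ s ∈ mons m K, c s * ∏ i, pnt i₁ (0 : Fin m → ℝ) 0 τ i ^ s i =
      ∑ j ∈ range (K + 1), c (Finsupp.single i₁ j) * τ ^ j := by
  classical
  have hinj : Set.InjOn (fun j : ℕ => Finsupp.single i₁ j) (range (K + 1) : Set ℕ) :=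
    fun a _ b _ h => Finsupp.single_injective i₁ h
  have h1 : ∑ s ∈ (range (K + 1)).image (fun j : ℕ => Finsupp.single i₁ j),
      c s * ∏ i, pnt i₁ (0 : Fin m → ℝ) 0 τ i ^ s i =
      ∑ j ∈ range (K + 1), c (Finsupp.single i₁ j) * τ ^ j := by
    rw [Finset.sum_image hinj]
    refine Finset.sum_congr rfl fun j _ => ?_
    congr 1
    rw [Finset.prod_eq_single i₁]
    · rw [pnt_self, Finsupp.single_eq_same]
    · intro i _ hi
      rw [pur_single i₁ j i hi, pow_zero]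
    · intro h
      exact absurd (Finset.mem_univ _) h
  rw [← h1]
  symm
  refine Finset.sum_subset ?_ ?_
  · intro s hs
    obtain ⟨j, hj, rfl⟩ := Finset.mem_image.1 hs
    rw [Finset.mem_range] at hj
    exact single_mem i₁ (by omega)
  · intro s hs hs'
    have hnp : ¬ Pur i₁ s := by
      intro hp
      refine hs' (Finset.mem_image.2 ⟨s i₁, ?_, (eq_single hp).symm⟩)
      rw [Finset.mem_range]
      have h2 := mem_mons.1 hs
      rw [eq_single hp, Finsupp.sum_single_index rfl] at h2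
      omega
    unfold Pur at hnp
    push Not at hnp
    obtain ⟨j, hj, hsj⟩ := hnp
    rw [Finset.prod_eq_zero (Finset.mem_univ j), mul_zero]
    rw [pnt_ne i₁ τ hj, zero_pow hsj]

/-- The values on the axis of a polynomial. -/
theorem eval_axis {K : ℕ} {P : MvPolynomial (Fin m) ℝ} (hP : P.totalDegree ≤ K) (i₁ : Fin m)
    (τ : ℝ) : eval (pnt i₁ 0 0 τ) P =
      ∑ j ∈ range (K + 1), coeff (Finsupp.single i₁ j) P * τ ^ j := by
  rw [eval_of_degree hP, sum_pure]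

theorem eval_axis_rdp (K P : ℕ) (G : MvPolynomial (Fin m) ℝ) (i₁ : Fin m) (τ : ℝ) :
    eval (pnt i₁ 0 0 τ) (rdp K P G) =
      ∑ j ∈ range (K + 1), (hz P G (Finsupp.single i₁ j) : ℝ) / 2 ^ P * τ ^ j := by
  unfold rdp
  rw [eval_rdz, sum_pure K i₁ (fun s => (hz P G s : ℝ) / 2 ^ P)]

/-- Nested floors. -/
theorem hz_split (e X : ℕ) (G : MvPolynomial (Fin m) ℝ) (s : Fin m →₀ ℕ) :
    0 ≤ hz (e + X) G s - 2 ^ X * hz e G s ∧ hz (e + X) G s - 2 ^ X * hz e G s < 2 ^ X := by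
  unfold hz
  have h : (2 : ℝ) ^ e * coeff s G = ((2 : ℝ) ^ (e + X) * coeff s G) / ((2 ^ X : ℕ) : ℝ) := by
    rw [pow_add]
    push_cast
    field_simp
  rw [h, Int.floor_div_natCast]
  push_cast
  have h2 : (0 : ℤ) < 2 ^ X := by positivity
  generalize ⌊(2 : ℝ) ^ (e + X) * coeff s G⌋ = z
  have h3 := Int.emod_nonneg z h2.ne'
  have h4 := Int.emod_lt_of_pos z h2
  have h5 := Int.emod_add_mul_ediv z (2 ^ X)
  constructor <;> linarith

section defs

variable (F : Fam m J) (i₁ : Fin m) (a w q K e X : ℕ)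
  (H : ((Fin m → ℝ) × (Fin m → ℝ)) × F.ζ × ℕ → MvPolynomial (Fin m) ℝ)

open Classical in
/-- The fine digits of the coefficients which are not pure. -/
noncomputable def fsh (R : ℕ) (ω : F.Ω) : (Fin m →₀ ℕ) → ℤ := fun s =>
  if s ∈ mons m K ∧ ¬ Pur i₁ s then hz R (plb F i₁ a w q ω (H (slam F w ω))) s else 0

/-- The fine digits of the coefficients of the pure powers. -/
noncomputable def vfi (ω : F.Ω) : Fin K → ℤ := fun j =>
  hz (e + X) (plb F i₁ a w q ω (H (slam F w ω))) (Finsupp.single i₁ (j.val + 1)) -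
    2 ^ X * hz e (plb F i₁ a w q ω (H (slam F w ω))) (Finsupp.single i₁ (j.val + 1))

/-- The rows of the height of the own sheet over the coarse label. -/
noncomputable def unu (G : F.Ω → MvPolynomial (Fin m) ℝ) (r : ℕ) (ω : F.Ω) : ℤ :=
  ⌊(2 : ℝ) ^ r * nub e i₁ (plb F i₁ a w q ω (G ω)) (Rc F i₁ a w q K e H ω) (F.tw w ω)⌋

/-- The context of the heights. -/
noncomputable def cfi (ω : F.Ω) :
    ((((ℕ × ((Fin m → ℤ) × (Fin m → ℤ))) × ((Fin m →₀ ℕ) → ℤ)) × F.ζ) × ((Fin m →₀ ℕ) → ℤ)) :=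
  (ctx F i₁ a w q e H ω, fsh F i₁ a w q K H (e + X) ω)

end defs

section one

variable {F : Fam m J} {i₁ : Fin m} {a w q K e X : ℕ}
  {H : ((Fin m → ℝ) × (Fin m → ℝ)) × F.ζ × ℕ → MvPolynomial (Fin m) ℝ}

theorem plb_of_slam {ω ω' : F.Ω} (h : slam F w ω = slam F w ω') (G : MvPolynomial (Fin m) ℝ) :
    plb F i₁ a w q ω G = plb F i₁ a w q ω' G := by
  obtain ⟨h1, h2, -, -, -⟩ := box_of_slam (i₁ := i₁) (a := a) (q := q) h
  unfold plb
  rw [h1, h2]

theorem plb_of_slam' {ω ω' : F.Ω} (h : slam F w ω = slam F w ω') :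
    plb F i₁ a w q ω (H (slam F w ω)) = plb F i₁ a w q ω' (H (slam F w ω')) := by
  rw [h]
  exact plb_of_slam h _

theorem fsh_of_slam {R : ℕ} {ω ω' : F.Ω} (h : slam F w ω = slam F w ω') :
    fsh F i₁ a w q K H R ω = fsh F i₁ a w q K H R ω' := by
  unfold fsh
  rw [plb_of_slam' h]

theorem vfi_of_slam {ω ω' : F.Ω} (h : slam F w ω = slam F w ω') :
    vfi F i₁ a w q K e X H ω = vfi F i₁ a w q K e X H ω' := by
  unfold vfi
  rw [plb_of_slam' h]

theorem cfi_of_slam {ω ω' : F.Ω} (h : slam F w ω = slam F w ω') :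
    cfi F i₁ a w q K e X H ω = cfi F i₁ a w q K e X H ω' :=
  Prod.ext (ctx_of_slam h) (fsh_of_slam h)

theorem vfi_mem (ω : F.Ω) (j : Fin K) : 0 ≤ vfi F i₁ a w q K e X H ω j ∧
    vfi F i₁ a w q K e X H ω j < 2 ^ X := hz_split e X _ _

theorem totalDegree_plb (ω : F.Ω) {G : MvPolynomial (Fin m) ℝ} (hG : G.totalDegree ≤ K) :
    (plb F i₁ a w q ω G).totalDegree ≤ K :=
  (totalDegree_pull_le _ _ _ _ _ _).trans hG

theorem tw_mem (hw : w ≤ J) (ω : F.Ω) : 0 ≤ F.tw w ω ∧ F.tw w ω < 1 := T1_real F hw ω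

/-- The height at the centre is a polynomial in the time, with the fine digits as coefficients. -/
theorem nub_near {C0 : ℝ} (hw : w ≤ J) (hH : ∀ s, (H s).totalDegree ≤ K)
    {G : F.Ω → MvPolynomial (Fin m) ℝ} {ω : F.Ω}
    (hn : NearB F i₁ a w q K (e + X) (e + X) C0 G H ω) :
    |2 ^ X * nub e i₁ (plb F i₁ a w q ω (G ω)) (Rc F i₁ a w q K e H ω) (F.tw w ω) -
      (((hz (e + X) (plb F i₁ a w q ω (H (slam F w ω))) (Finsupp.single i₁ 0) -
        2 ^ X * hz e (plb F i₁ a w q ω (H (slam F w ω))) (Finsupp.single i₁ 0) : ℤ) : ℝ) +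
      ∑ j : Fin K, (vfi F i₁ a w q K e X H ω j : ℝ) * F.tw w ω ^ (j.val + 1))| ≤
      C0 + (mons m K).card + (K + 1) := by
  obtain ⟨t0, t1⟩ := tw_mem hw ω
  set P := plb F i₁ a w q ω (H (slam F w ω)) with hP
  set τ := F.tw w ω with hτ
  have hPd : P.totalDegree ≤ K := totalDegree_plb ω (hH _)
  have hpos : (0 : ℝ) < 2 ^ (e + X) := by positivity
  have hb : ∀ j, 0 ≤ pnt i₁ (0 : Fin m → ℝ) 0 τ j ∧ pnt i₁ (0 : Fin m → ℝ) 0 τ j ≤ 1 := by
    intro j
    by_cases hj : j = i₁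
    · rw [hj, pnt_self]
      exact ⟨t0, t1.le⟩
    · rw [pnt_ne i₁ τ hj]
      exact ⟨le_rfl, zero_le_one⟩
  have h1 := hn (pnt i₁ 0 0 τ) hb (pnt_self i₁ τ)
  have h2 : |eval (pnt i₁ 0 0 τ) P - eval (pnt i₁ 0 0 τ) (rdp K (e + X) P)| ≤
      (mons m K).card / 2 ^ (e + X) := abs_rdp_le hPd fun i => by
        rw [abs_of_nonneg (hb i).1]
        exact (hb i).2
  have h3 : Rc F i₁ a w q K (e + X) H ω = rdp K (e + X) P := rfl
  have h4 : Rc F i₁ a w q K e H ω = rdp K e P := rfl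
  rw [h3] at h1
  rw [h4]
  unfold nub
  -- the sum
  have h5 : 2 ^ (e + X) * (eval (pnt i₁ 0 0 τ) P - eval (pnt i₁ 0 0 τ) (rdp K e P)) =
      ∑ j ∈ range (K + 1), (2 ^ (e + X) * coeff (Finsupp.single i₁ j) P -
        2 ^ X * (hz e P (Finsupp.single i₁ j) : ℝ)) * τ ^ j := by
    rw [eval_axis hPd, eval_axis_rdp, ← Finset.sum_sub_distrib, Finset.mul_sum]
    refine Finset.sum_congr rfl fun j _ => ?_
    rw [pow_add]
    field_simp
  have h6 : |∑ j ∈ range (K + 1), (2 ^ (e + X) * coeff (Finsupp.single i₁ j) P -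
        2 ^ X * (hz e P (Finsupp.single i₁ j) : ℝ)) * τ ^ j -
      ∑ j ∈ range (K + 1), ((hz (e + X) P (Finsupp.single i₁ j) -
        2 ^ X * hz e P (Finsupp.single i₁ j) : ℤ) : ℝ) * τ ^ j| ≤ K + 1 := by
    rw [← Finset.sum_sub_distrib]
    refine (Finset.abs_sum_le_sum_abs _ _).trans ?_
    have h7 : ∀ j ∈ range (K + 1), |(2 ^ (e + X) * coeff (Finsupp.single i₁ j) P -
        2 ^ X * (hz e P (Finsupp.single i₁ j) : ℝ)) * τ ^ j -
      ((hz (e + X) P (Finsupp.single i₁ j) -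
        2 ^ X * hz e P (Finsupp.single i₁ j) : ℤ) : ℝ) * τ ^ j| ≤ 1 := by
      intro j _
      rw [← sub_mul, abs_mul]
      have h8 : |τ ^ j| ≤ 1 := by
        rw [abs_of_nonneg (pow_nonneg t0 _)]
        exact pow_le_one₀ t0 t1.le
      have h9 : |(2 ^ (e + X) * coeff (Finsupp.single i₁ j) P -
          2 ^ X * (hz e P (Finsupp.single i₁ j) : ℝ)) -
          ((hz (e + X) P (Finsupp.single i₁ j) -
          2 ^ X * hz e P (Finsupp.single i₁ j) : ℤ) : ℝ)| ≤ 1 := by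
        push_cast
        have h10 := Int.floor_le ((2 : ℝ) ^ (e + X) * coeff (Finsupp.single i₁ j) P)
        have h11 := Int.lt_floor_add_one ((2 : ℝ) ^ (e + X) * coeff (Finsupp.single i₁ j) P)
        unfold hz
        rw [abs_le]
        constructor <;> linarith
      calc _ ≤ 1 * 1 := mul_le_mul h9 h8 (abs_nonneg _) zero_le_one
        _ = 1 := one_mul 1
    refine (Finset.sum_le_sum h7).trans (le_of_eq ?_)
    rw [Finset.sum_const, Finset.card_range, nsmul_eq_mul, mul_one]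
    push_cast
    ring
  have h12 : ∑ j ∈ range (K + 1), ((hz (e + X) P (Finsupp.single i₁ j) -
        2 ^ X * hz e P (Finsupp.single i₁ j) : ℤ) : ℝ) * τ ^ j =
      ((hz (e + X) P (Finsupp.single i₁ 0) - 2 ^ X * hz e P (Finsupp.single i₁ 0) : ℤ) : ℝ) +
      ∑ j : Fin K, (vfi F i₁ a w q K e X H ω j : ℝ) * τ ^ (j.val + 1) := by
    rw [Finset.sum_range_succ', pow_zero, mul_one, add_comm,
      Finset.sum_range (fun j => ((hz (e + X) P (Finsupp.single i₁ (j + 1)) -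
        2 ^ X * hz e P (Finsupp.single i₁ (j + 1)) : ℤ) : ℝ) * τ ^ (j + 1))]
    rfl
  have h13 : 2 ^ X * (2 ^ e * (eval (pnt i₁ 0 0 τ) (plb F i₁ a w q ω (G ω)) -
      eval (pnt i₁ 0 0 τ) (rdp K e P))) =
      2 ^ (e + X) * (eval (pnt i₁ 0 0 τ) (plb F i₁ a w q ω (G ω)) -
        eval (pnt i₁ 0 0 τ) (rdp K (e + X) P)) -
      2 ^ (e + X) * (eval (pnt i₁ 0 0 τ) P - eval (pnt i₁ 0 0 τ) (rdp K (e + X) P)) +
      2 ^ (e + X) * (eval (pnt i₁ 0 0 τ) P - eval (pnt i₁ 0 0 τ) (rdp K e P)) := by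
    rw [pow_add]
    ring
  rw [h12] at h6
  rw [h13, h5]
  have h14 : |2 ^ (e + X) * (eval (pnt i₁ 0 0 τ) (plb F i₁ a w q ω (G ω)) -
        eval (pnt i₁ 0 0 τ) (rdp K (e + X) P))| ≤ C0 := by
    rw [abs_mul, abs_of_pos hpos]
    calc 2 ^ (e + X) * |eval (pnt i₁ 0 0 τ) (plb F i₁ a w q ω (G ω)) -
        eval (pnt i₁ 0 0 τ) (rdp K (e + X) P)| ≤ 2 ^ (e + X) * (C0 / 2 ^ (e + X)) :=
          mul_le_mul_of_nonneg_left h1 hpos.le
      _ = C0 := by field_simp
  have h15 : |2 ^ (e + X) * (eval (pnt i₁ 0 0 τ) P -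
      eval (pnt i₁ 0 0 τ) (rdp K (e + X) P))| ≤ (mons m K).card := by
    rw [abs_mul, abs_of_pos hpos]
    calc 2 ^ (e + X) * |eval (pnt i₁ 0 0 τ) P - eval (pnt i₁ 0 0 τ) (rdp K (e + X) P)| ≤
        2 ^ (e + X) * ((mons m K).card / 2 ^ (e + X)) := mul_le_mul_of_nonneg_left h2 hpos.le
      _ = (mons m K).card := by field_simp
  rw [abs_le] at h6 h14 h15 ⊢
  constructor <;> linarith [h6.1, h6.2, h14.1, h14.2, h15.1, h15.2]

end one

end Pool.PTH
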