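import Pool.Agent.H33.PTH.PA
import Pool.Agent.H81.SLP.Pick

/-!
# The path of windows: entropy of the heights in one window

`CIn`: the hypotheses for one window. `cstep`: N1 gives the entropy of the fine digits of the
heights given the context.
-/

set_option autoImplicit false

namespace Pool.PTH

open Finset Real MvPolynomial
open Pool.Agent.H49.Ent Pool.Agent.H32.Dense Pool.STK Pool.KA Pool.KSAT Pool.K2S Pool.PB
open Pool.KAF Pool.SLO Pool.SLP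

variable {m J : ℕ}

theorem cond_of_eq {Ω T : Type} [Fintype Ω] {p : Ω → ℝ} {Z : Ω → T} {z : T} {ω : Ω}
    (h : Z ω = z) : Pool.Agent.H49.Ent.cond p Z z ω = p ω / law p Z z := by
  unfold Pool.Agent.H49.Ent.cond
  rw [if_pos h]

theorem cond_of_ne {Ω T : Type} [Fintype Ω] {p : Ω → ℝ} {Z : Ω → T} {z : T} {ω : Ω}
    (h : Z ω ≠ z) : Pool.Agent.H49.Ent.cond p Z z ω = 0 := by
  unfold Pool.Agent.H49.Ent.cond
  rw [if_neg h]

/-- An event of a conditioned law. -/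
theorem rs_cond {Ω : Type} [Fintype Ω] {p : Ω → ℝ} (hp : ∀ ω, 0 ≤ p ω) {A : Ω → Prop}
    (hA : IsLaw (Pool.Agent.H49.Ent.cond p A True)) (E : Set Ω) :
    rs (Pool.Agent.H49.Ent.cond p A True) E =
      Pool.Agent.H49.Ent.cond p (fun ω => A ω ∧ ω ∈ E) True := by
  classical
  have hlaw : 0 < law p A True := by
    by_contra h
    have h0 : law p A True = 0 := le_antisymm (not_lt.1 h) (law_nonneg hp A True)
    have h1 : ∑ ω, Pool.Agent.H49.Ent.cond p A True ω = 0 := by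
      refine Finset.sum_eq_zero fun ω _ => ?_
      unfold Pool.Agent.H49.Ent.cond
      rw [h0, div_zero, ite_self]
    have h2 := hA.sum_one
    rw [h1] at h2
    exact zero_ne_one h2
  have key : law (Pool.Agent.H49.Ent.cond p A True) (fun ω => ω ∈ E) True =
      law p (fun ω => A ω ∧ ω ∈ E) True / law p A True := by
    unfold law
    rw [Finset.sum_div]
    refine Finset.sum_congr rfl fun ω _ => ?_
    unfold Pool.Agent.H49.Ent.cond
    by_cases h1 : A ω <;> by_cases h2 : ω ∈ E <;> simp [h1, h2, law]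
  funext ω
  unfold rs
  by_cases h1 : A ω <;> by_cases h2 : ω ∈ E
  · rw [cond_of_eq (Z := fun ω => ω ∈ E) (by simp [h2]), key, cond_of_eq (Z := A) (by simp [h1]),
      cond_of_eq (Z := fun ω => A ω ∧ ω ∈ E) (by simp [h1, h2])]
    field_simp
  · rw [cond_of_ne (Z := fun ω => ω ∈ E) (by simp [h2]),
      cond_of_ne (Z := fun ω => A ω ∧ ω ∈ E) (by simp [h2])]
  · rw [cond_of_eq (Z := fun ω => ω ∈ E) (by simp [h2]), cond_of_ne (Z := A) (by simp [h1]),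
      cond_of_ne (Z := fun ω => A ω ∧ ω ∈ E) (by simp [h1]), zero_div]
  · rw [cond_of_ne (Z := fun ω => ω ∈ E) (by simp [h2]),
      cond_of_ne (Z := fun ω => A ω ∧ ω ∈ E) (by simp [h2])]

/-- The hypotheses on the data (all windows): `A` is the event, `G` the own sheets, `e` the coarse
precision, `X` the number of fine digits; (row), (MK), (FR) for all large events. -/
structure Bas (F : Fam m J) (i₁ : Fin m) (A : F.Ω → Prop) (a K e X : ℕ)
    (G : F.Ω → MvPolynomial (Fin m) ℝ) (L c κ π₀ δ : ℝ) : Prop where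
  law : IsLaw (Pool.Agent.H49.Ent.cond F.p A True)
  hae : a ≤ e
  hJ : e + X ≤ J
  hG : ∀ ω, A ω → (G ω).totalDegree ≤ K
  hgr : ∀ ω, A ω → ∀ b : Fin m → ℝ, (∀ j, |b j - bp F i₁ ω j| ≤ 2 / 2 ^ a) →
    ∀ j, |eval b (pderiv j (G ω))| ≤ L
  hx : ∀ ω, A ω → |F.x ω i₁ - eval (bp F i₁ ω) (G ω)| ≤ 1 / 2 ^ (e + X)
  row : ∀ j : ℕ, (j + 1) * ⌊κ * X⌋₊ ≤ X → ∀ B : F.Ω → Prop, (∀ ω, B ω → A ω) →
    π₀ ≤ Pr (Pool.Agent.H49.Ent.cond F.p A True) {ω | B ω} →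
    CH (Pool.Agent.H49.Ent.cond F.p B True) (F.X (e + j * ⌊κ * X⌋₊ + ⌊κ * X⌋₊))
      (fun ω => (F.X (e + j * ⌊κ * X⌋₊) ω, F.W ω)) ≤ (m - c) * (⌊κ * X⌋₊ * Real.log 2)
  mkf : ∀ j : ℕ, (j + 1) * ⌊κ * X⌋₊ ≤ X → ∀ B : F.Ω → Prop, (∀ ω, B ω → A ω) →
    π₀ ≤ Pr (Pool.Agent.H49.Ent.cond F.p A True) {ω | B ω} →
    ((m : ℝ) - 1) * (((e + j * ⌊κ * X⌋₊ + ⌊κ * X⌋₊ : ℕ) - (a : ℝ)) * Real.log 2) - δ * X ≤
      CH (Pool.Agent.H49.Ent.cond F.p B True) (tdg i₁ (e + j * ⌊κ * X⌋₊ + ⌊κ * X⌋₊) F.x)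
        (bxs F i₁ a e K G (j * ⌊κ * X⌋₊ + ⌊κ * X⌋₊))
  fr : ∀ B : F.Ω → Prop, (∀ ω, B ω → A ω) →
    π₀ ≤ Pr (Pool.Agent.H49.Ent.cond F.p A True) {ω | B ω} →
    CH (Pool.Agent.H49.Ent.cond F.p B True) (Sc F i₁ a e K G X) (bxs F i₁ a e K G 0) ≤ δ * X

/-- The hypotheses for one window `w`. -/
structure Win (F : Fam m J) (i₁ : Fin m) (A : F.Ω → Prop) (a w q K e X : ℕ)
    (G : F.Ω → MvPolynomial (Fin m) ℝ)
    (H : ((Fin m → ℝ) × (Fin m → ℝ)) × F.ζ × ℕ → MvPolynomial (Fin m) ℝ) (C0 ι : ℝ) : Prop where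
  hwa : w ≤ a
  hq : a ≤ w + q
  hH : ∀ s, (H s).totalDegree ≤ K
  near : ∀ ω, A ω → NearB F i₁ a w q K (e + X) (e + X) C0 G H ω
  hG : ∀ ω ω', A ω → A ω' → slam F w ω = slam F w ω' → F.W ω = F.W ω' → G ω = G ω'
  hT : ((J : ℝ) - w) * Real.log 2 - ι * X ≤
    CH (Pool.Agent.H49.Ent.cond F.p A True) F.T (slam F w)

/-- The first digits of the time are alive. -/
def Alv (F : Fam m J) (A : F.Ω → Prop) (w j₀ : ℕ) (ε₀ : ℝ) : Prop :=
  j₀ * Real.log 2 - ε₀ ≤ CH (Pool.Agent.H49.Ent.cond F.p A True)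
    (fun ω => ⌊(2 : ℝ) ^ j₀ * F.tw w ω⌋) (slam F w)

/-- The label is near the own sheet for the coarse rounding. -/
theorem near_coarse {F : Fam m J} {i₁ : Fin m} {a w q K e X : ℕ}
    {G : F.Ω → MvPolynomial (Fin m) ℝ}
    {H : ((Fin m → ℝ) × (Fin m → ℝ)) × F.ζ × ℕ → MvPolynomial (Fin m) ℝ} {C0 : ℝ} (hC0 : 0 ≤ C0)
    (hH : ∀ s, (H s).totalDegree ≤ K) {ω : F.Ω}
    (hn : NearB F i₁ a w q K (e + X) (e + X) C0 G H ω) :
    NearB F i₁ a w q K e e (C0 + 2 * (mons m K).card) G H ω := by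
  intro b hb hbt
  have h1 := hn b hb hbt
  have hPd := totalDegree_plb (i₁ := i₁) (a := a) (q := q) (w := w) ω (hH (slam F w ω))
  have hb' : ∀ i, |b i| ≤ 1 := fun i => by
    rw [abs_of_nonneg (hb i).1]
    exact (hb i).2
  have h2 := abs_rdp_le (P := e + X) hPd hb'
  have h3 := abs_rdp_le (P := e) hPd hb'
  have h4 : (C0 + (mons m K).card) / 2 ^ (e + X) ≤ (C0 + (mons m K).card) / 2 ^ e := by
    refine div_le_div_of_nonneg_left (by positivity) (by positivity) ?_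
    exact pow_le_pow_right₀ (by norm_num) (by omega)
  have e1 : Rc F i₁ a w q K (e + X) H ω = rdp K (e + X) (plb F i₁ a w q ω (H (slam F w ω))) := rfl
  have e2 : Rc F i₁ a w q K e H ω = rdp K e (plb F i₁ a w q ω (H (slam F w ω))) := rfl
  rw [e1] at h1
  rw [e2]
  have h5 : (C0 + 2 * ((mons m K).card : ℝ)) / 2 ^ e = (C0 + (mons m K).card) / 2 ^ e +
      (mons m K).card / 2 ^ e := by ring
  rw [h5]
  have h6 : C0 / 2 ^ (e + X) + (mons m K).card / 2 ^ (e + X) =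
      (C0 + (mons m K).card) / 2 ^ (e + X) := by ring
  rw [abs_le] at h1 h2 h3 ⊢
  constructor <;> linarith [h1.1, h1.2, h2.1, h2.2, h3.1, h3.2]

/-! ### The digits of the time -/

theorem dig_eq (F : Fam m J) {w X : ℕ} (h : w + X ≤ J) (ω : F.Ω) :
    ⌊(2 : ℝ) ^ X * F.tw w ω⌋ =
      (((F.T ω % 2 ^ (J - w)) / 2 ^ (J - w - X) : ℕ) : ℤ) := by
  have h1 := Nat.div_add_mod (F.T ω) (2 ^ (J - w))
  have h2 : (F.T ω : ℝ) = 2 ^ (J - w) * (F.T1 w ω : ℝ) + ((F.T ω % 2 ^ (J - w) : ℕ) : ℝ) := by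
    have h3 : (F.T ω : ℝ) = ((2 ^ (J - w) * (F.T ω / 2 ^ (J - w)) + F.T ω % 2 ^ (J - w) : ℕ) : ℝ) := by
      exact_mod_cast h1.symm
    rw [h3]
    push_cast
    rfl
  have h4 : (2 : ℝ) ^ X * F.tw w ω =
      ((F.T ω % 2 ^ (J - w) : ℕ) : ℝ) / ((2 ^ (J - w - X) : ℕ) : ℝ) := by
    have h5 : (2 : ℝ) ^ J = 2 ^ w * (2 ^ X * 2 ^ (J - w - X)) := by
      rw [← pow_add, ← pow_add]
      congr 1
      omega
    have h6 : (2 : ℝ) ^ (J - w) = 2 ^ X * 2 ^ (J - w - X) := by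
      rw [← pow_add]
      congr 1
      omega
    unfold Fam.tw Fam.t
    rw [h2, h5, h6]
    push_cast
    field_simp
    ring
  rw [h4, Int.floor_div_natCast, Int.floor_natCast]
  push_cast
  rfl

theorem T_ch {F : Fam m J} {p : F.Ω → ℝ} (hp : IsLaw p) {w X : ℕ} (h : w + X ≤ J)
    {β : Type} (b : F.Ω → β) (hb : Det p b (F.T1 w))
    (hb' : Det p b (fun ω => ⌊(2 : ℝ) ^ X * F.tw w ω⌋)) :
    CH p F.T b ≤ ((J : ℝ) - w - X) * Real.log 2 := by
  classical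
  set Fs : β → Finset ℕ := fun g => if hg : ∃ ω, 0 < p ω ∧ b ω = g then
    (Finset.range (2 ^ (J - w - X))).image (fun i => 2 ^ (J - w) * F.T1 w hg.choose +
      (2 ^ (J - w - X) * ((F.T hg.choose % 2 ^ (J - w)) / 2 ^ (J - w - X)) + i)) else ∅ with hFs
  have h1 := CH_le_card hp.nonneg hp.sum_one F.T b Fs (by
    intro ω hω
    have hg : ∃ ω', 0 < p ω' ∧ b ω' = b ω := ⟨ω, hω, rfl⟩
    simp only [hFs]
    rw [dif_pos hg, Finset.mem_image]
    have e1 := hb _ _ hg.choose_spec.1 hω hg.choose_spec.2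
    have e2 : ⌊(2 : ℝ) ^ X * F.tw w hg.choose⌋ = ⌊(2 : ℝ) ^ X * F.tw w ω⌋ :=
      hb' _ _ hg.choose_spec.1 hω hg.choose_spec.2
    rw [dig_eq F h, dig_eq F h] at e2
    have e3 : (F.T hg.choose % 2 ^ (J - w)) / 2 ^ (J - w - X) =
      (F.T ω % 2 ^ (J - w)) / 2 ^ (J - w - X) := by exact_mod_cast e2
    refine ⟨(F.T ω % 2 ^ (J - w)) % 2 ^ (J - w - X),
      Finset.mem_range.2 (Nat.mod_lt _ (by positivity)), ?_⟩
    rw [e1, e3, Nat.div_add_mod]
    exact Nat.div_add_mod (F.T ω) (2 ^ (J - w)))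
  refine h1.trans ?_
  have h2 : ∀ ω, Real.log ((Fs (b ω)).card : ℝ) ≤ ((J : ℝ) - w - X) * Real.log 2 := by
    intro ω
    have h3 : (Fs (b ω)).card ≤ 2 ^ (J - w - X) := by
      simp only [hFs]
      split_ifs with hg
      · exact Finset.card_image_le.trans (by rw [Finset.card_range])
      · simp
    have h4 : ((J : ℝ) - w - X) = ((J - w - X : ℕ) : ℝ) := by
      rw [Nat.cast_sub (by omega), Nat.cast_sub (by omega)]
    rw [h4, ← Real.log_pow]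
    rcases Nat.eq_zero_or_pos (Fs (b ω)).card with h5 | h5
    · rw [h5, Nat.cast_zero, Real.log_zero]
      exact Real.log_nonneg (one_le_pow₀ (by norm_num))
    · exact Real.log_le_log (by exact_mod_cast h5) (by exact_mod_cast h3)
  have h5 := Ex_mono hp.nonneg (f := fun ω => Real.log ((Fs (b ω)).card : ℝ))
    (g := fun _ => ((J : ℝ) - w - X) * Real.log 2) (fun ω _ => h2 ω)
  rw [Ex_const hp.sum_one] at h5
  exact h5

end Pool.PTH
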