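import Pool.Agent.H33.PTH.PC

/-!
# The path of windows: entropy of the heights in one window, theorem
-/

set_option autoImplicit false

namespace Pool.PTH

open Finset Real MvPolynomial
open Pool.Agent.H49.Ent Pool.Agent.H32.Dense Pool.STK Pool.KA Pool.KSAT Pool.K2S Pool.PB
open Pool.KAF Pool.SLO Pool.SLP

variable {m J : ℕ}

theorem unu_div {F : Fam m J} {i₁ : Fin m} {a w q K e X r : ℕ}
    {H : ((Fin m → ℝ) × (Fin m → ℝ)) × F.ζ × ℕ → MvPolynomial (Fin m) ℝ}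
    {G : F.Ω → MvPolynomial (Fin m) ℝ} (hr : r ≤ X) (ω : F.Ω) :
    unu F i₁ a w q K e H G X ω / 2 ^ (X - r) = unu F i₁ a w q K e H G r ω := by
  unfold unu
  set y := nub e i₁ (plb F i₁ a w q ω (G ω)) (Rc F i₁ a w q K e H ω) (F.tw w ω)
  have h : (2 : ℝ) ^ r * y = ((2 : ℝ) ^ X * y) / ((2 ^ (X - r) : ℕ) : ℝ) := by
    have h1 : (2 : ℝ) ^ X = 2 ^ r * 2 ^ (X - r) := by
      rw [← pow_add]
      congr 1
      omega
    rw [h1]
    push_cast
    field_simp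
  rw [h, Int.floor_div_natCast]
  push_cast
  rfl

theorem Pr_sub {F : Fam m J} {A : F.Ω → Prop} (E : Set F.Ω) :
    Pr (Pool.Agent.H49.Ent.cond F.p A True) E =
      Pr (Pool.Agent.H49.Ent.cond F.p A True) {ω | A ω ∧ ω ∈ E} := by
  classical
  rw [Pr_eq, Pr_eq]
  refine Finset.sum_congr rfl fun ω _ => ?_
  by_cases h1 : A ω
  · by_cases h2 : ω ∈ E
    · rw [if_pos h2, if_pos (show ω ∈ {ω | A ω ∧ ω ∈ E} from ⟨h1, h2⟩)]
    · rw [if_neg h2, if_neg (fun h3 : ω ∈ {ω | A ω ∧ ω ∈ E} => h2 h3.2)]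
  · rw [cond_of_ne (by simp [h1]), ite_self, ite_self]

/-- The constant of the heights. -/
noncomputable def cst (m K : ℕ) (C0 : ℝ) : ℕ :=
  ⌈2 * (C0 + (mons m K).card + (K + 1)) + 2⌉₊

theorem cst_le (m K : ℕ) (C0 : ℝ) :
    2 * (C0 + (mons m K).card + (K + 1)) + 2 ≤ 2 ^ cst m K C0 := by
  have h1 := Nat.le_ceil (2 * (C0 + ((mons m K).card : ℝ) + ((K : ℝ) + 1)) + 2)
  have h2 : (cst m K C0 : ℝ) ≤ 2 ^ cst m K C0 := by
    exact_mod_cast Nat.lt_two_pow_self.le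
  exact h1.trans h2

/-- The rows of the heights of the window `w` are not full, on all large events. -/
def Hfw (F : Fam m J) (i₁ : Fin m) (A : F.Ω → Prop) (a w q K e X : ℕ)
    (G : F.Ω → MvPolynomial (Fin m) ℝ)
    (H : ((Fin m → ℝ) × (Fin m → ℝ)) × F.ζ × ℕ → MvPolynomial (Fin m) ℝ) (c κ π₀ : ℝ) : Prop :=
  ∀ j : ℕ, (j + 1) * ⌊κ * X⌋₊ ≤ X → ∀ B : F.Ω → Prop, (∀ ω, B ω → A ω) →
    π₀ ≤ Pr (Pool.Agent.H49.Ent.cond F.p A True) {ω | B ω} →
    CH (Pool.Agent.H49.Ent.cond F.p B True)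
      (unu F i₁ a w q K e H G (j * ⌊κ * X⌋₊ + ⌊κ * X⌋₊))
      (fun ω => (unu F i₁ a w q K e H G (j * ⌊κ * X⌋₊) ω, ctx F i₁ a w q e H ω, F.W ω)) ≤
      (1 - c) * ⌊κ * X⌋₊ * Real.log 2

/-- **The entropy of the fine digits of the heights.** -/
theorem cstep (hN1 : Pool.M5.N1Stmt) (m K : ℕ) (C0 c ε : ℝ) (hc : 0 < c)
    (hε : 0 < ε) : ∃ (κ π₀ ι ε₀ : ℝ) (j₀ X₀ : ℕ), 0 < κ ∧ κ ≤ 1 ∧ 0 < π₀ ∧
      0 < ι ∧ 0 < ε₀ ∧ ∀ (J : ℕ) (F : Fam m J) (i₁ : Fin m) (A : F.Ω → Prop)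
      (a w q e X : ℕ) (G : F.Ω → MvPolynomial (Fin m) ℝ)
      (H : ((Fin m → ℝ) × (Fin m → ℝ)) × F.ζ × ℕ → MvPolynomial (Fin m) ℝ), X₀ ≤ X →
      IsLaw (Pool.Agent.H49.Ent.cond F.p A True) → w + X ≤ J →
      Win F i₁ A a w q K e X G H C0 ι → Hfw F i₁ A a w q K e X G H c κ π₀ →
      Alv F A w j₀ ε₀ →
      Pool.KVA.MI (Pool.Agent.H49.Ent.cond F.p A True) (unu F i₁ a w q K e H G X)
        (vfi F i₁ a w q K e X H) (fun ω => (cfi F i₁ a w q K e X H ω, F.W ω)) ≤ ι * X →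
      CH (Pool.Agent.H49.Ent.cond F.p A True) (vfi F i₁ a w q K e X H)
        (cfi F i₁ a w q K e X H) ≤ ε * X * Real.log 2 := by
  classical
  obtain ⟨κ, π₀, ι₁, ε₀, j₀, X₁, hκ, hκ1, hπ, hι, hε₀, hav⟩ :=
    Pool.M5.avm_thm hN1 K (cst m K C0) c ε hc hε
  have hl2 : 0 < Real.log 2 := Real.log_pos one_lt_two
  refine ⟨κ, π₀, min ι₁ (ι₁ * Real.log 2), ε₀, j₀, X₁, hκ, hκ1, hπ,
    lt_min hι (by positivity), hε₀, ?_⟩
  intro J F i₁ A a w q e X G H hX hp hwX hW hH5 hal hMI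
  set p := Pool.Agent.H49.Ent.cond F.p A True with hpd
  have hp0 := hp.nonneg
  have hAp : ∀ ω, 0 < p ω → A ω := fun ω h => of_cond_pos h
  have hwJ : w ≤ J := by omega
  have hX0 : (0 : ℝ) ≤ X := Nat.cast_nonneg X
  set h : ℕ := ⌊κ * X⌋₊ with hh
  -- the functions
  set vL : (((Fin m → ℝ) × (Fin m → ℝ)) × F.ζ × ℕ) → Fin K → ℤ :=
    fac p (slam F w) (vfi F i₁ a w q K e X H) 0 with hvL
  set tL : (ℕ × F.ζ) → ℝ := fac p F.W (F.tw w) 0 with htL
  have hv1 : ∀ ω, 0 < p ω → vL (slam F w ω) = vfi F i₁ a w q K e X H ω := fun ω hω =>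
    fac_eq (fun ω ω' _ _ h => vfi_of_slam h) hω
  have htw : ∀ ω ω' : F.Ω, F.W ω = F.W ω' → F.tw w ω = F.tw w ω' := by
    intro ω ω' h
    have h1 : F.T ω = F.T ω' := (Prod.ext_iff.1 h).1
    unfold Fam.tw Fam.t Fam.T1
    rw [h1]
  have ht1 : ∀ ω, 0 < p ω → tL (F.W ω) = F.tw w ω := fun ω hω =>
    fac_eq (fun ω ω' _ _ h => htw ω ω' h) hω
  -- entropies given the line
  have hcslam : ∀ {S : Type} (Y : F.Ω → S), CH p Y (fun ω => (slam F w ω, cfi F i₁ a w q K e X H ω))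
      = CH p Y (slam F w) := by
    intro S Y
    refine CH_congr hp0 ?_ ?_ ?_ ?_
    · intro ω ω' _ _ h
      exact (Prod.ext_iff.1 h).1
    · intro ω ω' _ _ h
      exact (Prod.ext_iff.1 h).1
    · intro ω ω' _ _ h
      exact (Prod.ext_iff.1 h).1
    · intro ω ω' _ _ h
      have h' : slam F w ω = slam F w ω' := h
      exact Prod.ext h' (cfi_of_slam h')
  have hTs : CH p F.T (slam F w) ≤ CH p (fun ω => ⌊(2 : ℝ) ^ X * F.tw w ω⌋) (slam F w) +
      ((J : ℝ) - w - X) * Real.log 2 := by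
    have h1 := Pool.M5.CH_cond_le hp0 F.T (fun ω => ⌊(2 : ℝ) ^ X * F.tw w ω⌋) (slam F w)
    have h2 := T_ch hp hwX (fun ω => (⌊(2 : ℝ) ^ X * F.tw w ω⌋, slam F w ω))
      (fun ω ω' _ _ h => (of_slam (Prod.ext_iff.1 h).2).1)
      (fun ω ω' _ _ h => (Prod.ext_iff.1 h).1)
    linarith
  have hι1 : min ι₁ (ι₁ * Real.log 2) * X ≤ ι₁ * X :=
    mul_le_mul_of_nonneg_right (min_le_left _ _) hX0
  have hι2 : min ι₁ (ι₁ * Real.log 2) * X ≤ ι₁ * Real.log 2 * X :=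
    mul_le_mul_of_nonneg_right (min_le_right _ _) hX0
  have hav' := hav F.Ω (((Fin m → ℝ) × (Fin m → ℝ)) × F.ζ × ℕ) (ℕ × F.ζ)
    ((((ℕ × ((Fin m → ℤ) × (Fin m → ℤ))) × ((Fin m →₀ ℕ) → ℤ)) × F.ζ) × ((Fin m →₀ ℕ) → ℤ)) p
    (cfi F i₁ a w q K e X H) (slam F w) F.W (fun _ l => vL l) (unu F i₁ a w q K e H G X)
    (fun _ t => tL t) (fun _ _ => 0) X (by omega) ?_
  · refine le_trans (le_of_eq ?_) hav'
    exact Pool.M5.AVN.ch_eq hp0 _ fun ω hω => (hv1 ω hω).symm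
  refine ⟨hp, ?_, ?_, ?_, ?_, ?_, ?_, ?_, ?_, ?_⟩
  · -- size
    intro _ l
    refine fac_mem (Q := fun v : Fin K → ℤ => ∀ j, |((v j : ℤ) : ℝ)| ≤ 2 ^ X) ?_ ?_ l
    · intro j
      simp
    · intro ω _ j
      obtain ⟨g1, g2⟩ := vfi_mem (F := F) (i₁ := i₁) (a := a) (w := w) (q := q) (K := K)
        (e := e) (X := X) (H := H) ω j
      have g3 : (0 : ℝ) ≤ ((vfi F i₁ a w q K e X H ω j : ℤ) : ℝ) := by exact_mod_cast g1
      have g4 : ((vfi F i₁ a w q K e X H ω j : ℤ) : ℝ) ≤ (((2 : ℤ) ^ X : ℤ) : ℝ) := by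
        exact_mod_cast g2.le
      push_cast at g4
      rw [abs_of_nonneg g3]
      exact g4
  · intro _ t
    exact fac_mem (Q := fun x : ℝ => 0 ≤ x ∧ x < 1) ⟨le_rfl, one_pos⟩
      (fun ω _ => tw_mem hwJ ω) t
  · intro ω ω' hω hω' hc1 hs1 hw1
    have g1 := hW.hG ω ω' (hAp ω hω) (hAp ω' hω') hs1 hw1
    have g2 : ctx F i₁ a w q e H ω = ctx F i₁ a w q e H ω' := (Prod.ext_iff.1 hc1).1
    unfold unu
    rw [g1, plb_of_slam hs1, (ctx_ext g2).2.2.2.2.2.2.1 K, htw ω ω' hw1]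
  · -- the height is a polynomial in the time
    intro ω ω' hω hω' hc1 hs1
    have n1 := nub_near hwJ hW.hH (hW.near ω (hAp ω hω))
    have n2 := nub_near hwJ hW.hH (hW.near ω' (hAp ω' hω'))
    simp only [hv1 ω hω, ht1 ω hω, ht1 ω' hω']
    rw [plb_of_slam' hs1, vfi_of_slam hs1] at n1
    rw [vfi_of_slam (ω := ω) hs1]
    have f1 := Int.floor_le (2 ^ X * nub e i₁ (plb F i₁ a w q ω (G ω))
      (Rc F i₁ a w q K e H ω) (F.tw w ω))
    have f2 := Int.lt_floor_add_one (2 ^ X * nub e i₁ (plb F i₁ a w q ω (G ω))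
      (Rc F i₁ a w q K e H ω) (F.tw w ω))
    have f3 := Int.floor_le (2 ^ X * nub e i₁ (plb F i₁ a w q ω' (G ω'))
      (Rc F i₁ a w q K e H ω') (F.tw w ω'))
    have f4 := Int.lt_floor_add_one (2 ^ X * nub e i₁ (plb F i₁ a w q ω' (G ω'))
      (Rc F i₁ a w q K e H ω') (F.tw w ω'))
    have hsum : (2 : ℝ) ^ X * (∑ j : Fin K, ((vfi F i₁ a w q K e X H ω' j : ℤ) : ℝ) / 2 ^ X *
        (F.tw w ω' ^ (j.val + 1) - F.tw w ω ^ (j.val + 1)) + (0 - 0)) =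
        ∑ j : Fin K, ((vfi F i₁ a w q K e X H ω' j : ℤ) : ℝ) * F.tw w ω' ^ (j.val + 1) -
        ∑ j : Fin K, ((vfi F i₁ a w q K e X H ω' j : ℤ) : ℝ) * F.tw w ω ^ (j.val + 1) := by
      rw [sub_zero, add_zero, Finset.mul_sum, ← Finset.sum_sub_distrib]
      refine Finset.sum_congr rfl fun j _ => ?_
      field_simp
    rw [hsum]
    have hcst := cst_le m K C0
    unfold unu
    rw [abs_le] at n1 n2 ⊢
    constructor <;> linarith [n1.1, n1.2, n2.1, n2.2]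
  · -- the time is nearly independent of the line
    rw [Pool.M5.MI_eq hp0, hcslam]
    have g1 : CH p F.W (cfi F i₁ a w q K e X H) ≤ ((J : ℝ) - w) * Real.log 2 := by
      have g2 : CH p F.W (cfi F i₁ a w q K e X H) = CH p F.T (cfi F i₁ a w q K e X H) := by
        refine CH_congr hp0 ?_ ?_ (fun _ _ _ _ h => h) (fun _ _ _ _ h => h)
        · intro ω ω' _ _ h
          have h1 : F.W ω = F.W ω' := (Prod.ext_iff.1 h).1
          exact (Prod.ext_iff.1 h1).1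
        · intro ω ω' _ _ h
          have h1 : F.T ω = F.T ω' := (Prod.ext_iff.1 h).1
          have h2 : cfi F i₁ a w q K e X H ω = cfi F i₁ a w q K e X H ω' := (Prod.ext_iff.1 h).2
          have h3 : ctx F i₁ a w q e H ω = ctx F i₁ a w q e H ω' := (Prod.ext_iff.1 h2).1
          have h4 : F.Z ω = F.Z ω' := (Prod.ext_iff.1 h3).2
          exact Prod.ext h1 h4
      have g3 := T_ch (F := F) hp (w := w) (X := 0) (by omega) (cfi F i₁ a w q K e X H)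
        (fun ω ω' _ _ h => (ctx_ext (Prod.ext_iff.1 h).1).1)
        (fun ω ω' _ _ h => by
          show ⌊(2 : ℝ) ^ 0 * F.tw w ω⌋ = ⌊(2 : ℝ) ^ 0 * F.tw w ω'⌋
          have z : ∀ ω, ⌊(2 : ℝ) ^ 0 * F.tw w ω⌋ = 0 := fun ω => by
            rw [pow_zero, one_mul, Int.floor_eq_zero_iff]
            exact tw_mem hwJ ω
          rw [z, z])
      rw [g2]
      push_cast at g3
      linarith
    have g4 : CH p F.W (slam F w) = CH p F.T (slam F w) := by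
      refine CH_congr hp0 ?_ ?_ (fun _ _ _ _ h => h) (fun _ _ _ _ h => h)
      · intro ω ω' _ _ h
        have h1 : F.W ω = F.W ω' := (Prod.ext_iff.1 h).1
        exact (Prod.ext_iff.1 h1).1
      · intro ω ω' _ _ h
        have h1 : F.T ω = F.T ω' := (Prod.ext_iff.1 h).1
        have h2 : slam F w ω = slam F w ω' := (Prod.ext_iff.1 h).2
        exact Prod.ext h1 (of_slam h2).2.2.2
    rw [g4]
    have g5 := hW.hT
    linarith
  · -- the digits of the time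
    have g1 : CH p (fun ω => ⌊(2 : ℝ) ^ X * tL (F.W ω)⌋)
        (fun ω => (slam F w ω, cfi F i₁ a w q K e X H ω)) =
        CH p (fun ω => ⌊(2 : ℝ) ^ X * F.tw w ω⌋) (slam F w) := by
      rw [hcslam]
      exact Pool.M5.AVN.ch_eq hp0 _ fun ω hω => by rw [ht1 ω hω]
    rw [g1]
    have g5 := hW.hT
    nlinarith
  · have g1 : CH p (fun ω => ⌊(2 : ℝ) ^ j₀ * tL (F.W ω)⌋)
        (fun ω => (slam F w ω, cfi F i₁ a w q K e X H ω)) =
        CH p (fun ω => ⌊(2 : ℝ) ^ j₀ * F.tw w ω⌋) (slam F w) := by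
      rw [hcslam]
      exact Pool.M5.AVN.ch_eq hp0 _ fun ω hω => by rw [ht1 ω hω]
    rw [g1]
    exact hal
  · -- the rows are nearly independent of the heights
    have g1 : Pool.KVA.MI p (unu F i₁ a w q K e H G X) (fun ω => vL (slam F w ω))
        (fun ω => (F.W ω, cfi F i₁ a w q K e X H ω)) =
        Pool.KVA.MI p (unu F i₁ a w q K e H G X) (vfi F i₁ a w q K e X H)
        (fun ω => (F.W ω, cfi F i₁ a w q K e X H ω)) :=
      Pool.M5.AVN.mi_eq hp0 _ _ fun ω hω => hv1 ω hω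
    rw [g1]
    refine le_trans (le_of_eq ?_) (hMI.trans hι1)
    unfold Pool.KVA.MI
    have g2 : ∀ {S : Type} (Y : F.Ω → S), CH p Y (fun ω => (F.W ω, cfi F i₁ a w q K e X H ω)) =
        CH p Y (fun ω => (cfi F i₁ a w q K e X H ω, F.W ω)) := by
      intro S Y
      refine CH_congr hp0 ?_ ?_ ?_ ?_
      · intro ω ω' _ _ h
        exact (Prod.ext_iff.1 h).1
      · intro ω ω' _ _ h
        exact (Prod.ext_iff.1 h).1
      · intro ω ω' _ _ h
        exact Prod.ext (Prod.ext_iff.1 h).2 (Prod.ext_iff.1 h).1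
      · intro ω ω' _ _ h
        exact Prod.ext (Prod.ext_iff.1 h).2 (Prod.ext_iff.1 h).1
    rw [g2, g2, g2]
  · -- the rows are not full
    intro j hj E hE
    rw [← hh] at hj ⊢
    have hj' : j * h + h ≤ X := by
      have : (j + 1) * h = j * h + h := by ring
      omega
    have hB' : ∀ ω, (A ω ∧ ω ∈ E) → A ω := fun ω hω => hω.1
    have hPrB : π₀ ≤ Pr p {ω | A ω ∧ ω ∈ E} := by
      rw [← Pr_sub]
      exact hE
    have hPrE : 0 < Pr p E := lt_of_lt_of_le hπ hE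
    have hrs : rs p E = Pool.Agent.H49.Ent.cond F.p (fun ω => A ω ∧ ω ∈ E) True :=
      rs_cond F.isLaw.nonneg hp E
    have hrl : IsLaw (Pool.Agent.H49.Ent.cond F.p (fun ω => A ω ∧ ω ∈ E) True) := by
      rw [← hrs]
      exact Pool.KAF.rs_law hp hPrE
    have key := hH5 j (by rw [← hh]; exact hj) (fun ω => A ω ∧ ω ∈ E) hB' hPrB
    rw [← hh] at key
    rw [hrs]
    have g1 : ∀ ω, unu F i₁ a w q K e H G X ω / 2 ^ (X - (j + 1) * h) =
        unu F i₁ a w q K e H G (j * h + h) ω := fun ω => by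
      have : (j + 1) * h = j * h + h := by ring
      rw [this]
      exact unu_div hj' ω
    have g2 : ∀ ω, unu F i₁ a w q K e H G X ω / 2 ^ (X - j * h) =
        unu F i₁ a w q K e H G (j * h) ω := fun ω => unu_div (by omega) ω
    simp only [g1, g2]
    have g3 : CH (Pool.Agent.H49.Ent.cond F.p (fun ω => A ω ∧ ω ∈ E) True)
        (unu F i₁ a w q K e H G (j * h + h))
        (fun ω => ((unu F i₁ a w q K e H G (j * h) ω, F.W ω), cfi F i₁ a w q K e X H ω)) ≤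
        CH (Pool.Agent.H49.Ent.cond F.p (fun ω => A ω ∧ ω ∈ E) True)
        (unu F i₁ a w q K e H G (j * h + h))
        (fun ω => (unu F i₁ a w q K e H G (j * h) ω, ctx F i₁ a w q e H ω, F.W ω)) := by
      refine CH_mono_cond hrl.nonneg ?_
      intro ω ω' _ _ h'
      have a1 := (Prod.ext_iff.1 (Prod.ext_iff.1 h').1).1
      have a2 := (Prod.ext_iff.1 (Prod.ext_iff.1 h').1).2
      have a3 := (Prod.ext_iff.1 (Prod.ext_iff.1 h').2).1
      exact Prod.ext a1 (Prod.ext a3 a2)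
    exact g3.trans key

end Pool.PTH
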