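import Pool.Agent.H33.PTH.Sts
import Pool.Agent.H33.PTH.PD
import Pool.Agent.H33.M5.PathP
import Pool.Agent.H7.SLP.SHB

/-!
# The path of windows: assembly
-/

set_option autoImplicit false

namespace Pool.PTH

open MvPolynomial Finset Real
open Pool.Agent.H49.Ent Pool.Agent.H32.Dense Pool.STK Pool.KA Pool.KSAT Pool.K2S Pool.PB
open Pool.SLO Pool.SLP Pool.KAF

variable {m J : ℕ}

/-- The hypotheses of the path: `A` is the event, `G` the own sheets, `H` the label of the window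
`v`, `e` the coarse precision, `X` the number of fine digits. -/
structure Str (F : Fam m J) (i₁ : Fin m) (A : F.Ω → Prop) (a v q K e X : ℕ)
    (G : F.Ω → MvPolynomial (Fin m) ℝ) (H : Lb F) (C0 c κ π₀ δ : ℝ) : Prop where
  law : IsLaw (Pool.Agent.H49.Ent.cond F.p A True)
  hva : v ≤ a
  hq : a ≤ v + q
  hJ : a + X ≤ J
  hG : ∀ ω, A ω → (G ω).totalDegree ≤ K
  hH : ∀ s, (H s).totalDegree ≤ K
  near : ∀ w, v ≤ w → w ≤ a → ∀ ω, A ω →
    NearB F i₁ a w q K (e + X) (e + X) C0 G (lab F H v w) ω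
  hGl : ∀ ω ω', A ω → A ω' → F.l ω = F.l ω' → F.W ω = F.W ω' → G ω = G ω'
  fr : CH (Pool.Agent.H49.Ent.cond F.p A True) (Sc F i₁ a e K G X) (bxs F i₁ a e K G 0) ≤ δ * X
  h5 : ∀ w, v ≤ w → w ≤ a → Hfw F i₁ A a w q K e X G (lab F H v w) c κ π₀

theorem Win.mono {F : Fam m J} {i₁ : Fin m} {A : F.Ω → Prop} {a w q K e X : ℕ}
    {G : F.Ω → MvPolynomial (Fin m) ℝ} {H : Lb F} {C0 ι ι' : ℝ}
    (h : Win F i₁ A a w q K e X G H C0 ι) (hd : ι ≤ ι') : Win F i₁ A a w q K e X G H C0 ι' where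
  hwa := h.hwa
  hq := h.hq
  hH := h.hH
  near := h.near
  hG := h.hG
  hT := by
    have h1 := h.hT
    have h2 := mul_le_mul_of_nonneg_right hd (Nat.cast_nonneg X : (0 : ℝ) ≤ X)
    linarith only [h1, h2]

/-- The trivial bound for the heights of the own sheet. -/
theorem unu_triv {F : Fam m J} {i₁ : Fin m} {a w q K e X : ℕ} {C0 : ℝ} (hC0 : 0 ≤ C0)
    {p : F.Ω → ℝ} (hp : IsLaw p) (hw : w ≤ J) {G : F.Ω → MvPolynomial (Fin m) ℝ} {H : Lb F}
    (hH : ∀ s, (H s).totalDegree ≤ K)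
    (hn : ∀ ω, 0 < p ω → NearB F i₁ a w q K (e + X) (e + X) C0 G H ω) {T : Type} (t : F.Ω → T) :
    CH p (unu F i₁ a w q K e H G X) t ≤
      X * Real.log 2 + Real.log (4 * (C0 + 2 * (mons m K).card) + 5) := by
  have h1 : ∀ ω, 0 < p ω → |((unu F i₁ a w q K e H G X ω : ℤ) : ℝ)| ≤
      2 ^ X * (C0 + 2 * (mons m K).card) + 1 := by
    intro ω hω
    obtain ⟨t0, t1⟩ := tw_mem hw ω
    have h2 := near_coarse hC0 hH (hn ω hω)
    have h3 : |nub e i₁ (plb F i₁ a w q ω (G ω)) (Rc F i₁ a w q K e H ω) (F.tw w ω)| ≤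
        C0 + 2 * (mons m K).card := by
      have hb : ∀ j, 0 ≤ pnt i₁ (0 : Fin m → ℝ) 0 (F.tw w ω) j ∧
          pnt i₁ (0 : Fin m → ℝ) 0 (F.tw w ω) j ≤ 1 := by
        intro j
        by_cases hj : j = i₁
        · rw [hj, pnt_self]
          exact ⟨t0, t1.le⟩
        · rw [pnt_ne i₁ _ hj]
          exact ⟨le_rfl, zero_le_one⟩
      have h4 := h2 (pnt i₁ 0 0 (F.tw w ω)) hb (pnt_self i₁ _)
      unfold nub
      rw [abs_mul, abs_of_pos (by positivity : (0 : ℝ) < 2 ^ e)]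
      have h5 : (0 : ℝ) < 2 ^ e := by positivity
      rw [le_div_iff₀ h5] at h4
      linarith only [h4]
    unfold unu
    have h6 : |(2 : ℝ) ^ X * nub e i₁ (plb F i₁ a w q ω (G ω)) (Rc F i₁ a w q K e H ω)
        (F.tw w ω)| ≤ 2 ^ X * (C0 + 2 * (mons m K).card) := by
      rw [abs_mul, abs_of_pos (by positivity : (0 : ℝ) < 2 ^ X)]
      exact mul_le_mul_of_nonneg_left h3 (by positivity)
    generalize (2 : ℝ) ^ X * nub e i₁ (plb F i₁ a w q ω (G ω)) (Rc F i₁ a w q K e H ω)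
        (F.tw w ω) = y at h6
    rw [abs_le] at h6 ⊢
    have h7 := Int.floor_le y
    have h8 := Int.lt_floor_add_one y
    constructor <;> linarith [h6.1, h6.2]
  have h2 := ch_fin hp (fun ω (_ : Fin 1) => unu F i₁ a w q K e H G X ω) t
    (2 * (2 ^ X * (C0 + 2 * (mons m K).card) + 1)) (fun ω ω' hω hω' _ _ => by
      push_cast
      have h3 := h1 ω hω
      have h4 := h1 ω' hω'
      rw [abs_le] at h3 h4 ⊢
      constructor <;> linarith only [h3, h4, h3.1, h3.2, h4.1, h4.2])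
  have h3 : CH p (unu F i₁ a w q K e H G X) t ≤
      CH p (fun ω (_ : Fin 1) => unu F i₁ a w q K e H G X ω) t := by
    refine CH_mono_left hp.nonneg ?_
    intro ω ω' _ _ h
    exact congrFun (Prod.ext_iff.1 h).1 0
  rw [Fintype.card_fin] at h2
  have h4 : Real.log (2 * (2 * (2 ^ X * (C0 + 2 * (mons m K).card) + 1)) + 1) ≤
      X * Real.log 2 + Real.log (4 * (C0 + 2 * (mons m K).card) + 5) := by
    rw [← Real.log_pow, ← Real.log_mul (by positivity) (by positivity)]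
    refine Real.log_le_log (by positivity) ?_
    have h5 : (1 : ℝ) ≤ 2 ^ X := one_le_pow₀ (by norm_num)
    have h6 : (0 : ℝ) ≤ C0 + 2 * (mons m K).card := by positivity
    nlinarith only [h5]
  push_cast at h2
  linarith only [h3, h4, h2]

/-- **The path of windows.** -/
theorem pth (hN1 : Pool.M5.N1Stmt) (k K : ℕ) (C0 c ε : ℝ) (hK : 1 ≤ K)
    (hC0 : 0 ≤ C0) (hc : 0 < c) (hε : 0 < ε) (h1 : D1 (k + 1) K) (h3 : D3 (k + 1) K)
    (h4 : D4 (k + 1) K C0) (h5 : D5 (k + 1) K) (h6 : D6 (k + 1) K) (h7 : D7 (k + 1) K)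
    (h8 : D8 (k + 1) K) (hF : DF k K C0) (hA : ALV) :
    ∃ (κ π₀ δ ι D : ℝ) (X₀ : ℕ), 0 < κ ∧ κ ≤ 1 ∧ 0 < π₀ ∧ 0 < δ ∧ 0 < ι ∧ 0 ≤ D ∧
      ∀ (J : ℕ) (F : Fam (k + 1) J) (i₁ : Fin (k + 1)) (A : F.Ω → Prop) (a v q e x : ℕ)
        (H : Lb F) (G : F.Ω → MvPolynomial (Fin (k + 1)) ℝ), X₀ ≤ x →
        Str F i₁ A a v q K e (K * x) G H C0 c κ π₀ δ →
        (J : ℝ) * Real.log 2 - ι * x ≤
          CH (Pool.Agent.H49.Ent.cond F.p A True) F.T (fun ω => (F.l ω, F.Z ω)) →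
        CH (Pool.Agent.H49.Ent.cond F.p A True) (ctx F i₁ a v q (e + K * x) H)
          (fun ω => (ctx F i₁ a a q (e + K * x) (lab F H v a) ω, F.W ω)) ≤
          ε * ((a : ℝ) - v) + D * x := by
  classical
  have hKr : (1 : ℝ) ≤ K := by exact_mod_cast hK
  have hK0 : (0 : ℝ) < K := by linarith
  obtain ⟨C1, hC1, h1⟩ := h1
  obtain ⟨C3, hC3, h3⟩ := h3
  obtain ⟨C4, hC4, h4⟩ := h4
  obtain ⟨C5, hC5, h5⟩ := h5
  obtain ⟨C6, hC6, h6⟩ := h6
  obtain ⟨C7, hC7, h7⟩ := h7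
  obtain ⟨C8, hC8, h8⟩ := h8
  obtain ⟨CF, hCF, hF⟩ := hF
  obtain ⟨κ, π₁, ι₁, ε₀, j₀, X₁, hκ, hκ1, hπ₁, hι₁, hε₀, hcs⟩ :=
    cstep hN1 (k + 1) K C0 c (ε / (16 * K)) hc (by positivity)
  have hl2 : 0 < Real.log 2 := Real.log_pos one_lt_two
  have hl2' : Real.log 2 ≤ 1 := by
    have := Real.log_two_lt_d9
    linarith only [hl2, this]
  obtain ⟨Ce, hCe⟩ : ∃ Ce : ℝ, Ce = C1 + C3 + C4 + C5 + C6 := ⟨_, rfl⟩
  have hCe0 : 0 ≤ Ce := by rw [hCe]; positivity
  obtain ⟨cL, hcL⟩ : ∃ cL : ℝ, cL = Real.log (4 * (C0 + 2 * (mons (k + 1) K).card) + 5) :=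
    ⟨_, rfl⟩
  have hcL0 : 0 ≤ cL := by
    rw [hcL]
    refine Real.log_nonneg ?_
    have : (0 : ℝ) ≤ (mons (k + 1) K).card := by positivity
    linarith only [hC0]
  obtain ⟨δ, hδ⟩ : ∃ δ : ℝ, δ = ε / (32 * K * (K + 1)) := ⟨_, rfl⟩
  have hδ0 : 0 < δ := by
    rw [hδ]
    positivity
  obtain ⟨ι, hι⟩ : ∃ ι : ℝ, ι = min ι₁ (min (ε / (32 * K * (CF + 1))) (ε₀ / (2 * (j₀ + 1)))) :=
    ⟨_, rfl⟩
  have hι0 : 0 < ι := by
    rw [hι]
    exact lt_min hι₁ (lt_min (by positivity) (by positivity))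
  have i1 : ι ≤ ι₁ := by rw [hι]; exact min_le_left _ _
  have i2 : ι ≤ ε / (32 * K * (CF + 1)) := by
    rw [hι]
    exact (min_le_right _ _).trans (min_le_left _ _)
  have i3 : ι ≤ ε₀ / (2 * (j₀ + 1)) := by
    rw [hι]
    exact (min_le_right _ _).trans (min_le_right _ _)
  refine ⟨κ, π₁, δ, ι, 2 * C8 * K * (K + 1) + 2 * C8 * K * (K + cL) / ι₁ + 4 * C7,
    X₁ + j₀ + 1 + ⌈CF * 32 * K / ε⌉₊ + ⌈8 * Ce / ε⌉₊ + ⌈8 * C8 * (3 * K + 1) * Ce / (ι₁ * ε)⌉₊,
    hκ, hκ1, hπ₁, hδ0, hι0, by positivity, ?_⟩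
  intro J F i₁ A a v q e x H G hx hB hT
  have hva := hB.hva
  have hq := hB.hq
  have hH := hB.hH
  have hnear := hB.near
  have hG := hB.hGl
  set p := Pool.Agent.H49.Ent.cond F.p A True with hpd
  have hp : IsLaw p := hB.law
  have hp0 := hp.nonneg
  have hAp : ∀ ω, 0 < p ω → A ω := fun ω h => of_cond_pos h
  set X := K * x with hX
  have hx1 : 1 ≤ x := by omega
  have hxr : (1 : ℝ) ≤ x := by exact_mod_cast hx1
  have hx0 : (0 : ℝ) < x := by linarith only [hxr]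
  have hxX : x ≤ X := Nat.le_mul_of_pos_left _ hK
  have hX1 : 1 ≤ X := hx1.trans hxX
  have hXr : (X : ℝ) = K * x := by rw [hX]; push_cast; ring
  have hX0 : (0 : ℝ) < X := by exact_mod_cast hX1
  have haJ : a ≤ J := by
    have := hB.hJ
    omega
  have hwXJ : ∀ w, w ≤ a → w + X ≤ J := by
    intro w hw
    have := hB.hJ
    omega
  -- large x
  have b1 : CF * 32 * K / ε ≤ x := (Nat.le_ceil _).trans (by
    have : ⌈CF * 32 * K / ε⌉₊ ≤ x := by omega
    exact_mod_cast this)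
  have b2 : 8 * Ce / ε ≤ x := (Nat.le_ceil _).trans (by
    have : ⌈8 * Ce / ε⌉₊ ≤ x := by omega
    exact_mod_cast this)
  have b3 : 8 * C8 * (3 * K + 1) * Ce / (ι₁ * ε) ≤ x := (Nat.le_ceil _).trans (by
    have : ⌈8 * C8 * (3 * K + 1) * Ce / (ι₁ * ε)⌉₊ ≤ x := by omega
    exact_mod_cast this)
  rw [div_le_iff₀ hε] at b1 b2
  rw [div_le_iff₀ (by positivity)] at b3
  obtain ⟨a1, a2⟩ := hA (k + 1) J F p (ι * x) hp hT
  have hTw : ∀ w, v ≤ w → w ≤ a →
      ((J : ℝ) - w) * Real.log 2 - ι * x ≤ CH p F.T (slam F w) := fun w _ h => a1 w (by omega)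
  -- the step of the shape
  have hfr : CH p (Sc F i₁ a e K G X) (bxs F i₁ a e K G 0) ≤ δ * X := hB.fr
  have hshape : ∀ w, v ≤ w → w ≤ a → CH p (fsh F i₁ a w q K (lab F H v w) (e + X))
      (ctx F i₁ a w q e (lab F H v w)) ≤ ε / (8 * K) * X := by
    intro w hvw hwa
    have g1 := hF J F i₁ p a w q e X (lab F H v w) G (ι * x) hp hX1 (hwXJ w hwa) (by omega)
      (fun s => hH _) (fun ω hω => hB.hG ω (hAp ω hω))
      (fun ω hω => hnear w hvw hwa ω (hAp ω hω)) (by positivity) (hTw w hvw hwa)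
    have g2 : ((K : ℝ) + 1) * CH p (Sc F i₁ a e K G X) (bxs F i₁ a e K G 0) ≤
        ε / (32 * K) * X := by
      have g3 : δ ≤ ε / (32 * K * (K + 1)) := hδ.le
      calc ((K : ℝ) + 1) * CH p (Sc F i₁ a e K G X) (bxs F i₁ a e K G 0) ≤
          (K + 1) * (ε / (32 * K * (K + 1)) * X) := by
            refine mul_le_mul_of_nonneg_left (hfr.trans ?_) (by positivity)
            exact mul_le_mul_of_nonneg_right g3 hX0.le
        _ = ε / (32 * K) * X := by field_simp
    have g4 : CF ≤ ε / (32 * K) * X := by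
      rw [hXr]
      have : ε / (32 * K) * (K * x) = x * ε / 32 := by field_simp
      rw [this]
      nlinarith only [b1, hKr, hCF]
    have g5 : CF * (ι * x) ≤ ε / (32 * K) * X := by
      have g6 : CF * ι ≤ ε / (32 * K) := by
        calc CF * ι ≤ (CF + 1) * (ε / (32 * K * (CF + 1))) :=
              mul_le_mul (by linarith only) i2 hι0.le (by linarith only [hCF])
          _ = ε / (32 * K) := by field_simp
      calc CF * (ι * x) = CF * ι * x := by ring
        _ ≤ ε / (32 * K) * x := mul_le_mul_of_nonneg_right g6 hx0.le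
        _ ≤ ε / (32 * K) * X := by
            refine mul_le_mul_of_nonneg_left ?_ (by positivity)
            exact_mod_cast hxX
    have g7 : ε / (8 * K) * X = 4 * (ε / (32 * K) * X) := by
      field_simp
      ring
    have g8 : 0 ≤ ε / (32 * K) * X := by positivity
    rw [g7]
    linarith only [hCF, g1, g2, g4, g5]
  by_cases hax : a < v + x
  · -- the short path
    have g1 := h7 J F i₁ p a v a v q (e + X) H hp le_rfl hva haJ (by omega) hH
    rw [lab_self] at g1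
    have g2 : CH p (ctx F i₁ a v q (e + X) H)
        (fun ω => (ctx F i₁ a a q (e + X) (lab F H v a) ω, F.W ω)) ≤
        CH p (ctx F i₁ a v q (e + X) H) (ctx F i₁ a a q (e + X) (lab F H v a)) := by
      refine CH_mono_cond hp0 ?_
      intro ω ω' _ _ h
      exact (Prod.ext_iff.1 h).1
    have g3 : C7 * (1 + ((a - v : ℕ) : ℝ)) ≤ C7 * (2 * x) := by
      refine mul_le_mul_of_nonneg_left ?_ hC7
      have : ((a - v : ℕ) : ℝ) ≤ x := by
        have : a - v ≤ x := by omega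
        exact_mod_cast this
      linarith only [hxr, this]
    have g4 : 0 ≤ ε * ((a : ℝ) - v) := by
      have : (v : ℝ) ≤ a := by exact_mod_cast hva
      have : 0 ≤ (a : ℝ) - v := by linarith only [this]
      positivity
    have g5 : 0 ≤ (2 * C8 * K * (K + 1) + 2 * C8 * K * (K + cL) / ι₁) * x := by positivity
    have g6 : 0 ≤ C7 * x := by positivity
    nlinarith only [g1, g2, g3, g4, g5, g6]
  rw [not_lt] at hax
  -- the shift
  obtain ⟨s, hs, hsal⟩ := a2 j₀ x a ε₀ hε₀ (by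
    have g1 : (j₀ : ℝ) * ι < ε₀ := by
      calc (j₀ : ℝ) * ι ≤ j₀ * (ε₀ / (2 * (j₀ + 1))) :=
            mul_le_mul_of_nonneg_left i3 (Nat.cast_nonneg _)
        _ < ε₀ := by
            rw [← mul_div_assoc, div_lt_iff₀ (by positivity)]
            have : (0 : ℝ) ≤ j₀ := Nat.cast_nonneg _
            nlinarith only [hε₀]
    calc (j₀ : ℝ) * (ι * x) = j₀ * ι * x := by ring
      _ < ε₀ * x := mul_lt_mul_of_pos_right g1 hx0) (by
    have := hwXJ a le_rfl
    omega)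
  set W : ℕ → ℕ := fun i => max v (a - (s + i * x)) with hW
  set n : ℕ := (a - s - v) / x with hn
  have hWv : ∀ i, v ≤ W i := fun i => le_max_left _ _
  have hWa : ∀ i, W i ≤ a := fun i => max_le hva (Nat.sub_le _ _)
  have hnx : n * x ≤ a - s - v := Nat.div_mul_le_self _ _
  have hnx' : a - s - v < n * x + x := by
    have := Nat.lt_div_mul_add (a := a - s - v) hx1
    exact this
  have hWe : ∀ i, i ≤ n → W i = a - (s + i * x) ∧ s + i * x + v ≤ a := by
    intro i hi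
    have g1 : i * x ≤ n * x := Nat.mul_le_mul_right _ hi
    have g2 : s + i * x + v ≤ a := by omega
    exact ⟨max_eq_right (by omega), g2⟩
  have hpath := Pool.M5.PTH.path hp0
    (fun i => ctx F i₁ a (W i) q (e + X) (lab F H v (W i)))
    (fun i => ctx F i₁ a (W i) q e (lab F H v (W i)))
    (fun i => fsh F i₁ a (W i) q K (lab F H v (W i)) (e + X))
    (fun i => vfi F i₁ a (W i) q K e X (lab F H v (W i)))
    (fun i => unu F i₁ a (W i) q K e (lab F H v (W i)) G X) F.W (n := n) (K := K) ∅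
    (e := Ce) (y := ε / (8 * K) * X) (Y := C8 * X) (L := X * Real.log 2 + cL) (m := ι₁ * X)
    hCe0 (by positivity) (by positivity) (by positivity) ?_ ?_ ?_ ?_ ?_ ?_ ?_ ?_ ?_ ?_
  · -- the sum
    obtain ⟨w1, w2⟩ := hWe 0 (Nat.zero_le _)
    obtain ⟨w3, w4⟩ := hWe n le_rfl
    have c1 := Pool.M5.PTH.link hp0 (ctx F i₁ a a q (e + X) (lab F H v a))
      (ctx F i₁ a (W 0) q (e + X) (lab F H v (W 0))) (ctx F i₁ a v q (e + X) H) F.W
    have c2 := Pool.M5.PTH.link hp0 (ctx F i₁ a (W 0) q (e + X) (lab F H v (W 0)))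
      (ctx F i₁ a (W n) q (e + X) (lab F H v (W n))) (ctx F i₁ a v q (e + X) H) F.W
    have c3 : CH p (ctx F i₁ a v q (e + X) H)
        (fun ω => (ctx F i₁ a (W 0) q (e + X) (lab F H v (W 0)) ω,
          (ctx F i₁ a a q (e + X) (lab F H v a) ω, F.W ω))) ≤
        CH p (ctx F i₁ a v q (e + X) H)
          (fun ω => (ctx F i₁ a (W 0) q (e + X) (lab F H v (W 0)) ω, F.W ω)) := by
      refine CH_mono_cond hp0 ?_
      intro ω ω' _ _ h
      simp only [Prod.mk.injEq] at h ⊢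
      tauto
    have c4 : CH p (ctx F i₁ a (W 0) q (e + X) (lab F H v (W 0)))
        (fun ω => (ctx F i₁ a a q (e + X) (lab F H v a) ω, F.W ω)) ≤ C7 * (1 + x) := by
      have g1 := h7 J F i₁ p a v a (W 0) q (e + X) H hp (hWv 0) (hWa 0) haJ (by omega) hH
      refine le_trans (CH_mono_cond hp0 ?_) (g1.trans ?_)
      · intro ω ω' _ _ h
        exact (Prod.ext_iff.1 h).1
      · refine mul_le_mul_of_nonneg_left ?_ hC7
        have : a - W 0 ≤ x := by rw [w1]; omega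
        have : ((a - W 0 : ℕ) : ℝ) ≤ x := by exact_mod_cast this
        linarith only [this]
    have c5 : CH p (ctx F i₁ a v q (e + X) H)
        (fun ω => (ctx F i₁ a (W n) q (e + X) (lab F H v (W n)) ω,
          (ctx F i₁ a (W 0) q (e + X) (lab F H v (W 0)) ω, F.W ω))) ≤ C7 * (1 + x) := by
      have g1 := h7 J F i₁ p a v (W n) v q (e + X) H hp le_rfl (hWv n) ((hWa n).trans haJ)
        (by omega) hH
      rw [lab_self] at g1
      refine le_trans (CH_mono_cond hp0 ?_) (g1.trans ?_)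
      · intro ω ω' _ _ h
        exact (Prod.ext_iff.1 h).1
      · refine mul_le_mul_of_nonneg_left ?_ hC7
        have : W n - v ≤ x := by rw [w3]; omega
        have : ((W n - v : ℕ) : ℝ) ≤ x := by exact_mod_cast this
        linarith only [this]
    have hnx2 : (n : ℝ) * x ≤ (a : ℝ) - v := by
      have g1 : n * x + v ≤ a := by omega
      have g2 : ((n * x + v : ℕ) : ℝ) ≤ a := by exact_mod_cast g1
      push_cast at g2
      linarith only [g2]
    have hav : 0 ≤ (a : ℝ) - v := le_trans (by positivity) hnx2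
    have hn0 : (0 : ℝ) ≤ n := Nat.cast_nonneg _
    -- the terms
    have t1 : (n : ℝ) * (2 * Ce) ≤ ε / 4 * ((a : ℝ) - v) := by
      have g1 : 2 * Ce ≤ ε / 4 * x := by linarith only [b2]
      calc (n : ℝ) * (2 * Ce) ≤ n * (ε / 4 * x) := mul_le_mul_of_nonneg_left g1 hn0
        _ = ε / 4 * (n * x) := by ring
        _ ≤ ε / 4 * ((a : ℝ) - v) := mul_le_mul_of_nonneg_left hnx2 (by positivity)
    have t2 : (n : ℝ) * (2 * (ε / (8 * K) * X)) ≤ ε / 4 * ((a : ℝ) - v) := by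
      calc (n : ℝ) * (2 * (ε / (8 * K) * X)) = ε / 4 * (n * x) := by
            rw [hXr]
            field_simp
            ring
        _ ≤ ε / 4 * ((a : ℝ) - v) := mul_le_mul_of_nonneg_left hnx2 (by positivity)
    have t3 : 2 * (C8 * X) * ((K : ℝ) + 1) = 2 * C8 * K * (K + 1) * x := by
      rw [hXr]
      ring
    have t4 : 2 * (C8 * X) * ((K * (X * Real.log 2 + cL)) / (ι₁ * X)) ≤
        2 * C8 * K * (K + cL) / ι₁ * x := by
      have g1 : 2 * (C8 * X) * ((K * (X * Real.log 2 + cL)) / (ι₁ * X)) =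
          2 * C8 * K / ι₁ * (X * Real.log 2 + cL) := by
        field_simp
      have g2 : X * Real.log 2 + cL ≤ (K + cL) * x := by
        have g3 : (X : ℝ) * Real.log 2 ≤ X * 1 := mul_le_mul_of_nonneg_left hl2' hX0.le
        have g4 : cL ≤ cL * x := le_mul_of_one_le_right hcL0 hxr
        rw [hXr] at g3 ⊢
        linarith only [g3, g4]
      rw [g1]
      calc 2 * C8 * K / ι₁ * (X * Real.log 2 + cL) ≤ 2 * C8 * K / ι₁ * ((K + cL) * x) :=
            mul_le_mul_of_nonneg_left g2 (by positivity)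
        _ = 2 * C8 * K * (K + cL) / ι₁ * x := by ring
    have t5 : 2 * (C8 * X) * ((n * ((3 * K + 1) * Ce)) / (ι₁ * X)) ≤
        ε / 4 * ((a : ℝ) - v) := by
      have g1 : 2 * (C8 * X) * ((n * ((3 * K + 1) * Ce)) / (ι₁ * X)) =
          n * (2 * C8 * (3 * K + 1) * Ce / ι₁) := by
        field_simp
      have g2 : 2 * C8 * (3 * K + 1) * Ce / ι₁ ≤ ε / 4 * x := by
        rw [div_le_iff₀ hι₁]
        linarith only [b3]
      rw [g1]
      calc (n : ℝ) * (2 * C8 * (3 * K + 1) * Ce / ι₁) ≤ n * (ε / 4 * x) :=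
            mul_le_mul_of_nonneg_left g2 hn0
        _ = ε / 4 * (n * x) := by ring
        _ ≤ ε / 4 * ((a : ℝ) - v) := mul_le_mul_of_nonneg_left hnx2 (by positivity)
    have t6 : C7 * (1 + x) ≤ 2 * C7 * x := by nlinarith only [hC7, hxr]
    rw [Finset.card_empty, Nat.cast_zero, zero_add, add_div] at hpath
    have t7 : (n : ℝ) * (2 * Ce + 2 * (ε / (8 * K) * X)) + 2 * (C8 * X) * (K + 1 +
        (K * (X * Real.log 2 + cL) / (ι₁ * X) + n * ((3 * K + 1) * Ce) / (ι₁ * X))) ≤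
        3 * (ε / 4 * ((a : ℝ) - v)) + (2 * C8 * K * (K + 1) * x +
          2 * C8 * K * (K + cL) / ι₁ * x) := by
      have e1 : (n : ℝ) * (2 * Ce + 2 * (ε / (8 * K) * X)) + 2 * (C8 * X) * (K + 1 +
          (K * (X * Real.log 2 + cL) / (ι₁ * X) + n * ((3 * K + 1) * Ce) / (ι₁ * X))) =
          (n : ℝ) * (2 * Ce) + n * (2 * (ε / (8 * K) * X)) + 2 * (C8 * X) * ((K : ℝ) + 1) +
            2 * (C8 * X) * ((K * (X * Real.log 2 + cL)) / (ι₁ * X)) +
            2 * (C8 * X) * ((n * ((3 * K + 1) * Ce)) / (ι₁ * X)) := by ring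
      rw [e1, t3]
      linarith only [t1, t2, t4, t5]
    have t8 : 0 ≤ ε / 4 * ((a : ℝ) - v) := by positivity
    have e2 : (2 * C8 * K * (K + 1) + 2 * C8 * K * (K + cL) / ι₁ + 4 * C7) * x =
        2 * C8 * K * (K + 1) * x + 2 * C8 * K * (K + cL) / ι₁ * x + 2 * (2 * C7 * x) := by ring
    rw [e2]
    have e3 : ε * ((a : ℝ) - v) = 4 * (ε / 4 * ((a : ℝ) - v)) := by ring
    rw [e3]
    linarith only [hpath, c1, c2, c3, c4, c5, t1, t2, t3, t4, t5, t6, t8]
  · -- coarse record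
    intro i hi
    obtain ⟨g1, g2⟩ := hWe i hi.le
    obtain ⟨g3, g4⟩ := hWe (i + 1) hi
    have g5 : W (i + 1) ≤ W i := by rw [g1, g3]; exact Nat.sub_le_sub_left (by nlinarith only [hx]) _
    have g6 : W i - W (i + 1) ≤ x := by
      rw [g1, g3]
      have : (i + 1) * x = i * x + x := by ring
      omega
    have g7 := h1 J F i₁ p a v (W i) (W (i + 1)) q e X H hp (hWv _) g5 ((hWa _).trans haJ)
      (by omega) (Nat.mul_le_mul_left _ g6) hH
    refine le_trans (CH_mono_cond hp0 ?_) (g7.trans (by rw [hCe]; linarith only [hC3, hC4, hC5, hC6]))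
    intro ω ω' _ _ h
    exact (Prod.ext_iff.1 h).1
  · -- reconstruction
    intro i hi
    obtain ⟨g1, g2⟩ := hWe 0 (Nat.zero_le _)
    obtain ⟨g3, g4⟩ := hWe (i + 1) hi
    have g5 : W (i + 1) ≤ W 0 := by rw [g1, g3]; exact Nat.sub_le_sub_left (by nlinarith only [hx]) _
    exact (h6 J F i₁ p a v (W 0) (W (i + 1)) q e X H hp (hWv _) g5 ((hWa _).trans haJ)
      (by omega) hH).trans (by rw [hCe]; linarith only [hC1, hC3, hC4, hC5])
  · intro i hi
    obtain ⟨g1, g2⟩ := hWe i hi.le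
    obtain ⟨g3, g4⟩ := hWe (i + 1) hi
    have g5 : W (i + 1) ≤ W i := by rw [g1, g3]; exact Nat.sub_le_sub_left (by nlinarith only [hx]) _
    exact (h3 J F i₁ p a v (W i) (W (i + 1)) q e X H hp (hWv _) g5 ((hWa _).trans haJ)
      (by omega) hH).trans (by rw [hCe]; linarith only [hC1, hC4, hC5, hC6])
  · intro i hi
    obtain ⟨g1, g2⟩ := hWe i hi.le
    obtain ⟨g3, g4⟩ := hWe (i + 1) hi
    have g5 : W (i + 1) ≤ W i := by rw [g1, g3]; exact Nat.sub_le_sub_left (by nlinarith only [hx]) _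
    exact (h4 J F i₁ p a v (W i) (W (i + 1)) q e X H G hp (hWv _) g5 ((hWa _).trans haJ)
      (by omega) hH (fun ω hω => hB.hG ω (hAp ω hω))
      (fun ω hω => hnear _ (hWv _) (hWa _) ω (hAp ω hω))
      (fun ω hω => hnear _ (hWv _) (hWa _) ω (hAp ω hω))).trans (by rw [hCe]; linarith only [hC1, hC3, hC5, hC6])
  · intro i hi
    obtain ⟨g1, g2⟩ := hWe i (by omega)
    obtain ⟨g3, g4⟩ := hWe (i + K) hi
    have g5 : W (i + K) + X ≤ W i := by
      rw [g1, g3]
      have : (i + K) * x = i * x + X := by rw [hX]; ring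
      omega
    exact (h5 J F i₁ p a v (W i) (W (i + K)) q e X H hp (hWv _) g5 ((hWa _).trans haJ)
      (by omega) hH).trans (by rw [hCe]; linarith only [hC1, hC3, hC4, hC6])
  · intro i
    rw [hcL]
    exact unu_triv hC0 hp ((hWa i).trans haJ) (fun s => hH _)
      (fun ω hω => hnear _ (hWv _) (hWa _) ω (hAp ω hω)) _
  · intro i _ _
    exact (h8 J F i₁ p a (W i) q e X (lab F H v (W i)) hp (fun s => hH _)).2.1
  · intro i _ _ _
    exact hshape _ (hWv _) (hWa _)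
  · intro i _ _
    have g1 := (h8 J F i₁ p a (W i) q e X (lab F H v (W i)) hp (fun s => hH _)).2.2.1
    refine le_trans (CH_mono_cond hp0 ?_) g1
    intro ω ω' _ _ _
    rfl
  · intro i _ hi _ hmi
    obtain ⟨g1, g2⟩ := hWe i hi
    have g3 := hcs J F i₁ A a (W i) q e X G (lab F H v (W i)) (by omega) hp (hwXJ _ (hWa _))
      { hwa := hWa _
        hq := by have := hWv i; omega
        hH := fun s => hH _
        near := hnear _ (hWv _) (hWa _)
        hG := fun ω ω' hω hω' h1 h2 => hG ω ω' hω hω' (Prod.ext_iff.1 h1).1 h2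
        hT := by
          have g4 := hTw (W i) (hWv _) (hWa _)
          have g5 : ι * x ≤ ι₁ * X := mul_le_mul i1 (by exact_mod_cast hxX) hx0.le hι₁.le
          linarith only [g4, g5] } (hB.h5 _ (hWv _) (hWa _)) (by
          unfold Alv
          have g6 := hsal i (by omega)
          rw [g1]
          exact g6) hmi
    have g7 : ε / (16 * K) * X * Real.log 2 ≤ ε / (8 * K) * X := by
      have g8 : ε / (16 * K) * X * Real.log 2 ≤ ε / (16 * K) * X * 1 :=
        mul_le_mul_of_nonneg_left hl2' (by positivity)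
      have g9 : ε / (8 * K) * X = 2 * (ε / (16 * K) * X) := by
        field_simp
        ring
      have g10 : 0 ≤ ε / (16 * K) * X := by positivity
      linarith only [g8, g9, g10]
    exact g3.trans g7

end Pool.PTH
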