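import Pool.Agent.H33.PTH.PD

/-!
# The path of windows: the rows of the heights, cells larger than the precision
-/

set_option autoImplicit false

namespace Pool.PTH

open MvPolynomial Finset Real
open Pool.Agent.H49.Ent Pool.Agent.H32.Dense Pool.STK Pool.KA Pool.KSAT Pool.K2S Pool.PB
open Pool.SLO Pool.SLP Pool.KAF

variable {m J : ℕ}

/-- The rows of the heights are not full (`h5_fam`). -/
theorem hfw_of_bas (m K : ℕ) (L C0 c κ : ℝ) (hL : 0 ≤ L) (hC0 : 0 ≤ C0) (hc : 0 < c)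
    (hκ : 0 < κ) : ∃ (δ : ℝ) (X₀ : ℕ), 0 < δ ∧ ∀ (J : ℕ) (F : Fam m J) (i₁ : Fin m)
      (A : F.Ω → Prop) (a w q e X : ℕ) (G : F.Ω → MvPolynomial (Fin m) ℝ)
      (H : ((Fin m → ℝ) × (Fin m → ℝ)) × F.ζ × ℕ → MvPolynomial (Fin m) ℝ) (π₀ : ℝ), X₀ ≤ X →
      0 < π₀ → Bas F i₁ A a K e X G L c κ π₀ δ → w ≤ a → a ≤ w + q →
      (∀ s, (H s).totalDegree ≤ K) →
      (∀ ω, A ω → NearB F i₁ a w q K (e + X) (e + X) C0 G H ω) →
      Hfw F i₁ A a w q K e X G H (c / 2) κ π₀ := by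
  classical
  obtain ⟨C5, hC5, h5f⟩ := h5_fam m K L (C0 + 2 * (mons m K).card) hL (by positivity)
  have hl2 : 0 < Real.log 2 := Real.log_pos one_lt_two
  obtain ⟨δ, hδ⟩ : ∃ δ : ℝ, δ = c * κ * Real.log 2 / 64 := ⟨_, rfl⟩
  have hδ0 : 0 < δ := by rw [hδ]; positivity
  refine ⟨δ, ⌈2 / κ⌉₊ + ⌈C5 / δ⌉₊, hδ0, ?_⟩
  intro J F i₁ A a w q e X G H π₀ hX hπ hB hwa hq hH hnear
  set p := Pool.Agent.H49.Ent.cond F.p A True with hpd
  have hp : IsLaw p := hB.law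
  have hp0 := hp.nonneg
  have hwX : w + X ≤ J := by
    have h1 := hB.hae
    have h2 := hB.hJ
    omega
  have hwJ : w ≤ J := by omega
  have hX0 : (0 : ℝ) ≤ X := Nat.cast_nonneg X
  have hXr : 2 / κ ≤ X := by
    have h1 := Nat.le_ceil (2 / κ)
    have h2 : ⌈2 / κ⌉₊ ≤ X := by omega
    have h3 : ((⌈2 / κ⌉₊ : ℕ) : ℝ) ≤ X := by exact_mod_cast h2
    linarith
  have hXC : C5 ≤ δ * X := by
    have h1 := Nat.le_ceil (C5 / δ)
    have h2 : ⌈C5 / δ⌉₊ ≤ X := by omega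
    have h3 : ((⌈C5 / δ⌉₊ : ℕ) : ℝ) ≤ X := by exact_mod_cast h2
    have h4 : C5 / δ ≤ X := h1.trans h3
    rw [div_le_iff₀ hδ0] at h4
    linarith
  have hκX : 2 ≤ κ * X := by
    rw [div_le_iff₀ hκ] at hXr
    linarith
  intro j hj B hBA hPB
  set h : ℕ := ⌊κ * X⌋₊ with hh
  have hhκ : κ * X / 2 ≤ h := by
    have := Nat.lt_floor_add_one (κ * X)
    rw [← hh] at this
    linarith
  have hj' : j * h + h ≤ X := by
    have : (j + 1) * h = j * h + h := by ring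
    omega
  have hrl : IsLaw (Pool.Agent.H49.Ent.cond F.p B True) := by
    have h1 := rs_cond F.isLaw.nonneg (A := A) hp {ω | B ω}
    have h2 : Pool.Agent.H49.Ent.cond F.p (fun ω => A ω ∧ ω ∈ {ω | B ω}) True =
        Pool.Agent.H49.Ent.cond F.p B True := by
      congr 1
      funext ω
      exact propext ⟨fun h => h.2, fun h => ⟨hBA ω h, h⟩⟩
    rw [← h2, ← h1]
    exact Pool.KAF.rs_law hp (lt_of_lt_of_le hπ hPB)
  have key := h5f J F i₁ B a w q e e (j * h) h X c (δ * X) (δ * X) G H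
    hrl hwJ (by omega) (by have := hB.hae; omega) hj' (fun ω hω => hB.hG ω (hBA ω hω))
    (fun ω hω => hB.hgr ω (hBA ω hω)) (fun ω hω => (hB.hx ω (hBA ω hω)).trans (by
      refine one_div_le_one_div_of_le (by positivity) (pow_le_pow_right₀ (by norm_num) ?_)
      omega)) (fun ω hω => near_coarse hC0 hH (hnear ω (hBA ω hω)))
    (hB.row j hj _ hBA hPB) (hB.mkf j hj _ hBA hPB) (hB.fr _ hBA hPB)
  refine key.trans ?_
  have g4 : 4 * (δ * X) ≤ c / 2 * (h * Real.log 2) := by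
    have g5 : 4 * (δ * X) = c / 4 * (κ * X / 2 * Real.log 2) * (1 / 2) := by
      rw [hδ]
      ring
    rw [g5]
    have g6 : κ * X / 2 * Real.log 2 ≤ h * Real.log 2 := mul_le_mul_of_nonneg_right hhκ hl2.le
    have g7 : 0 ≤ κ * X / 2 * Real.log 2 := by positivity
    nlinarith
  linarith

end Pool.PTH
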