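import Pool.Agent.H33.PTH.PC

/-!
# The path of windows: the conversions, statements

All windows `w` between the large window `v` and the small one use the label `H` of the window `v`
(`lab F H v w`). `a` is the radius of the cells, `e` the coarse precision, `X` the number of fine
digits.
-/

set_option autoImplicit false

namespace Pool.PTH

open Finset Real
open Pool.Agent.H49.Ent Pool.Agent.H32.Dense Pool.STK Pool.KA Pool.KSAT Pool.K2S Pool.PB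
open Pool.SLO Pool.SLP Pool.KAF

variable {m J : ℕ}

/-- Labels. -/
abbrev Lb (F : Fam m J) : Type :=
  ((Fin m → ℝ) × (Fin m → ℝ)) × F.ζ × ℕ → MvPolynomial (Fin m) ℝ

/-- The label `H` of the window `v` as a label of the smaller window `w`. -/
def lab (F : Fam m J) (H : Lb F) (v w : ℕ) : Lb F :=
  fun s => H (s.1, s.2.1, s.2.2 / 2 ^ (w - v))

theorem lab_slam (F : Fam m J) (H : Lb F) {v w : ℕ} (h : v ≤ w) (hw : w ≤ J) (ω : F.Ω) :
    lab F H v w (slam F w ω) = H (slam F v ω) := by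
  unfold lab slam
  simp only
  congr 3
  unfold Fam.T1
  rw [Nat.div_div_eq_div_mul, ← pow_add]
  congr 2
  omega

theorem lab_self (F : Fam m J) (H : Lb F) (v : ℕ) : lab F H v v = H := by
  funext s
  unfold lab
  rw [Nat.sub_self, pow_zero, Nat.div_one]

theorem lab_deg (F : Fam m J) {H : Lb F} {K : ℕ} (h : ∀ s, (H s).totalDegree ≤ K) (v w : ℕ) (s) :
    (lab F H v w s).totalDegree ≤ K := h _

/-- **(D1)** The coarse record of the longer window `w'` from the record of the window `w`. -/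
def D1 (m K : ℕ) : Prop := ∃ C : ℝ, 0 ≤ C ∧ ∀ (J : ℕ) (F : Fam m J) (i₁ : Fin m)
  (p : F.Ω → ℝ) (a v w w' q e X : ℕ) (H : Lb F), IsLaw p → v ≤ w' → w' ≤ w → w ≤ J →
  a ≤ v + q → K * (w - w') ≤ X → (∀ s, (H s).totalDegree ≤ K) →
  CH p (ctx F i₁ a w' q e (lab F H v w')) (ctx F i₁ a w q (e + X) (lab F H v w)) ≤ C

/-- **(D3)** The coarse record and the fine shape of the window `w` from those of the longer
window `w'` and the time. -/
def D3 (m K : ℕ) : Prop := ∃ C : ℝ, 0 ≤ C ∧ ∀ (J : ℕ) (F : Fam m J) (i₁ : Fin m)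
  (p : F.Ω → ℝ) (a v w w' q e X : ℕ) (H : Lb F), IsLaw p → v ≤ w' → w' ≤ w → w ≤ J →
  a ≤ v + q → (∀ s, (H s).totalDegree ≤ K) →
  CH p (cfi F i₁ a w q K e X (lab F H v w))
    (fun ω => (cfi F i₁ a w' q K e X (lab F H v w') ω, F.W ω)) ≤ C

/-- **(D4)** The height of the own sheet at the window `w'` from the height at `w`. -/
def D4 (m K : ℕ) (C0 : ℝ) : Prop := ∃ C : ℝ, 0 ≤ C ∧ ∀ (J : ℕ) (F : Fam m J) (i₁ : Fin m)
  (p : F.Ω → ℝ) (a v w w' q e X : ℕ) (H : Lb F) (G : F.Ω → MvPolynomial (Fin m) ℝ), IsLaw p →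
  v ≤ w' → w' ≤ w → w ≤ J → a ≤ v + q → (∀ s, (H s).totalDegree ≤ K) →
  (∀ ω, 0 < p ω → (G ω).totalDegree ≤ K) →
  (∀ ω, 0 < p ω → NearB F i₁ a w q K (e + X) (e + X) C0 G (lab F H v w) ω) →
  (∀ ω, 0 < p ω → NearB F i₁ a w' q K (e + X) (e + X) C0 G (lab F H v w') ω) →
  CH p (unu F i₁ a w' q K e (lab F H v w') G X)
    (fun ω => (unu F i₁ a w q K e (lab F H v w) G X ω,
      (cfi F i₁ a w' q K e X (lab F H v w') ω, F.W ω))) ≤ C

/-- **(D5)** The fine digits of the heights at `w` if the window `w'` is `2 ^ X` times longer. -/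
def D5 (m K : ℕ) : Prop := ∃ C : ℝ, 0 ≤ C ∧ ∀ (J : ℕ) (F : Fam m J) (i₁ : Fin m)
  (p : F.Ω → ℝ) (a v w w' q e X : ℕ) (H : Lb F), IsLaw p → v ≤ w' → w' + X ≤ w → w ≤ J →
  a ≤ v + q → (∀ s, (H s).totalDegree ≤ K) →
  CH p (vfi F i₁ a w q K e X (lab F H v w))
    (fun ω => (cfi F i₁ a w' q K e X (lab F H v w') ω,
      (cfi F i₁ a w q K e X (lab F H v w) ω, F.W ω))) ≤ C

/-- **(D6)** The record of the window `w'` from its parts and the record of a smaller window. -/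
def D6 (m K : ℕ) : Prop := ∃ C : ℝ, 0 ≤ C ∧ ∀ (J : ℕ) (F : Fam m J) (i₁ : Fin m)
  (p : F.Ω → ℝ) (a v w w' q e X : ℕ) (H : Lb F), IsLaw p → v ≤ w' → w' ≤ w → w ≤ J →
  a ≤ v + q → (∀ s, (H s).totalDegree ≤ K) →
  CH p (ctx F i₁ a w' q (e + X) (lab F H v w'))
    (fun ω => (vfi F i₁ a w' q K e X (lab F H v w') ω,
      (fsh F i₁ a w' q K (lab F H v w') (e + X) ω,
        (ctx F i₁ a w' q e (lab F H v w') ω,
          (ctx F i₁ a w q (e + X) (lab F H v w) ω, F.W ω))))) ≤ C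

/-- **(D7)** The trivial bound for a change of the window. -/
def D7 (m K : ℕ) : Prop := ∃ C : ℝ, 0 ≤ C ∧ ∀ (J : ℕ) (F : Fam m J) (i₁ : Fin m)
  (p : F.Ω → ℝ) (a v w w' q R : ℕ) (H : Lb F), IsLaw p → v ≤ w' → w' ≤ w → w ≤ J →
  a ≤ v + q → (∀ s, (H s).totalDegree ≤ K) →
  CH p (ctx F i₁ a w' q R (lab F H v w')) (ctx F i₁ a w q R (lab F H v w)) ≤
    C * (1 + ((w - w' : ℕ) : ℝ))

/-- **(D8)** The trivial bound for more digits, and fewer digits are a function of more. -/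
def D8 (m K : ℕ) : Prop := ∃ C : ℝ, 0 ≤ C ∧ ∀ (J : ℕ) (F : Fam m J) (i₁ : Fin m)
  (p : F.Ω → ℝ) (a w q R X : ℕ) (H : Lb F), IsLaw p → (∀ s, (H s).totalDegree ≤ K) →
  CH p (ctx F i₁ a w q (R + X) H) (ctx F i₁ a w q R H) ≤ C * X ∧
  CH p (fsh F i₁ a w q K H (R + X)) (ctx F i₁ a w q R H) ≤ C * X ∧
  CH p (vfi F i₁ a w q K R X H) (fun _ => ()) ≤ C * X ∧
  CH p (ctx F i₁ a w q R H) (ctx F i₁ a w q (R + X) H) = 0

/-- **(DF)** The step for the shape: one sheet at every time, the time is full given the line. -/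
def DF (k K : ℕ) (C0 : ℝ) : Prop := ∃ C : ℝ, 0 ≤ C ∧ ∀ (J : ℕ) (F : Fam (k + 1) J)
  (i₁ : Fin (k + 1)) (p : F.Ω → ℝ) (a w q e X : ℕ) (H : Lb F)
  (G : F.Ω → MvPolynomial (Fin (k + 1)) ℝ) (δ : ℝ), IsLaw p → 1 ≤ X → w + X ≤ J →
  a ≤ w + q → (∀ s, (H s).totalDegree ≤ K) → (∀ ω, 0 < p ω → (G ω).totalDegree ≤ K) →
  (∀ ω, 0 < p ω → NearB F i₁ a w q K (e + X) (e + X) C0 G H ω) → 0 ≤ δ →
  ((J : ℝ) - w) * Real.log 2 - δ ≤ CH p F.T (slam F w) →
  CH p (fsh F i₁ a w q K H (e + X)) (ctx F i₁ a w q e H) ≤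
    (K + 1) * CH p (Sc F i₁ a e K G X) (bxs F i₁ a e K G 0) + C * (1 + δ)

/-- **(ALV)** The time is full given the line in all windows, and there is a shift such that the
first digits of the time are alive in all windows of an arithmetic progression. -/
def ALV : Prop := ∀ (m J : ℕ) (F : Fam m J) (p : F.Ω → ℝ) (δ : ℝ), IsLaw p →
  (J : ℝ) * Real.log 2 - δ ≤ CH p F.T (fun ω => (F.l ω, F.Z ω)) →
  (∀ w ≤ J, ((J : ℝ) - w) * Real.log 2 - δ ≤ CH p F.T (slam F w)) ∧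
  ∀ (j₀ x b : ℕ) (ε₀ : ℝ), 0 < ε₀ → j₀ * δ < ε₀ * x → b + j₀ ≤ J →
    ∃ s < x, ∀ n : ℕ, s + n * x ≤ b → j₀ * Real.log 2 - ε₀ ≤
      CH p (fun ω => ⌊(2 : ℝ) ^ j₀ * F.tw (b - (s + n * x)) ω⌋) (slam F (b - (s + n * x)))

end Pool.PTH
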