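import Pool.Agent.H33.PTH.Vis0
import Pool.Agent.H59.PTH.D
import Pool.Agent.H36.PTH.D135

/-!
# The static fullness (`VIS`): the path of windows at a fine row
-/

set_option autoImplicit false

namespace Pool.PTH

open MvPolynomial Finset Real
open Pool.Agent.H49.Ent Pool.Agent.H32.Dense Pool.STK Pool.KA Pool.KSAT Pool.K2S Pool.PB
open Pool.SLO Pool.SLP Pool.KAF
open Pool.SLF (Sl Dts Qa Gap GC own st cx)

variable {k J : ℕ}

/-- The choice of the fine row: cells larger or smaller than the precisions. -/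
theorem fine_row {F : Fam (k + 1) J} {c : ℝ} {N l B B' R r a M : ℕ} {A : F.Ω → Prop}
    (hl : 0 < l) (h : GC F c N l B r A) (hB : B' + 2 * M + 1 ≤ B) (hr : r + B * l ≤ R) :
    ∃ r', r ≤ r' ∧ r' + M * l ≤ R ∧ r' + B' * l ≤ R ∧ (a + 2 ≤ r' ∨ r' + M * l ≤ a + 2) ∧
      GC F c N l B' r' A := by
  have e0 : (B' + 2 * M + 1) * l ≤ B * l := Nat.mul_le_mul_right _ hB
  have e1 : (B' + 2 * M + 1) * l = B' * l + 2 * (M * l) + l := by ring
  by_cases h1 : a + 2 ≤ r
  · refine ⟨r, le_rfl, by omega, by omega, Or.inl h1, ?_⟩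
    have e : r + 0 * l = r := by simp
    have := gc_shift (j₀ := 0) (B' := B') h (by omega)
    rwa [e] at this
  by_cases h2 : r + M * l ≤ a + 2
  · refine ⟨r, le_rfl, by omega, by omega, Or.inr h2, ?_⟩
    have e : r + 0 * l = r := by simp
    have := gc_shift (j₀ := 0) (B' := B') h (by omega)
    rwa [e] at this
  rw [not_le] at h1 h2
  refine ⟨r + (M + 1) * l, by omega, ?_, ?_, Or.inl ?_, gc_shift h (by omega)⟩
  · have : (M + 1) * l = M * l + l := by ring
    omega
  · have : (M + 1) * l = M * l + l := by ring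
    omega
  · have : (M + 1) * l = M * l + l := by ring
    omega

/-- **(VIS)** -/
theorem vis_thm {S : FCl (k + 1)} (hN1 : Pool.M5.N1Stmt) (h4 : ∀ K C0, 0 ≤ C0 → D4 (k + 1) K C0)
    (hF : ∀ K C0, 0 ≤ C0 → DF k K C0) (hA : ALV) (hS : ∀ K, STA k K) (h5 : H5W S)
    (h1F : Pool.SLF.H1F S) (hFN : Pool.SLF.FNR (k + 1)) : Pool.SLF.VIS S := by
  intro c h₁ X K hc hc1 hh₁ hX hK
  obtain ⟨C8, hC8, h8⟩ := d8_thm (k + 1) K
  refine ⟨⌈C8⌉₊ + 1, by omega, ?_⟩
  intro η hη
  have hC00 : (0 : ℝ) ≤ 1 + (mons (k + 1) K).card := by positivity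
  obtain ⟨κ, π₀, δ, ι, D, X₀, hκ, hκ1, hπ, hδ, hι, hD, hpth⟩ := pth hN1 k K
    (1 + (mons (k + 1) K).card) (c / 4 / 4) (η / 8) hK hC00 (by positivity) (by positivity)
    (d1_thm _ _) (d3_thm _ _) (h4 K _ hC00) (d5_thm _ _) (d6_thm _ _) (d7_thm _ _) (d8_thm _ _)
    (hF K _ hC00) hA
  obtain ⟨Cs, hCs, hsta⟩ := hS K
  obtain ⟨B₂, hB₂, h5⟩ := h5 (c / 4) h₁ X K κ π₀ δ (1 + (mons (k + 1) K).card) (by positivity)
    (by linarith only [hc1]) hh₁ hX hK hκ hκ1 hπ hδ hC00
  have hKB : B₂ ≤ K * B₂ := Nat.le_mul_of_pos_left _ hK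
  obtain ⟨B₀, h5⟩ := h5 (K * B₂) hKB
  obtain ⟨B', hB'⟩ : ∃ B' : ℕ, B' = B₀ + ⌈D⌉₊ * B₂ + K * B₂ + 5 := ⟨_, rfl⟩
  obtain ⟨L₁, h5⟩ := h5 B' (by omega)
  obtain ⟨Λ, hΛ, hfn⟩ := hFN c (B' + 2 * (K * B₂) + 1) hc hc1
  refine ⟨Λ * (L₁ + 1), ?_⟩
  intro L hL N i₁ ρ R q a w hwa haR haρ haq hLR hRL hρN
  have hΛL : Λ ≤ L := by nlinarith only [hL]
  have hL0 : 0 < L := by omega
  have hρN' : ρ ≤ N := by
    have h1 : (0 : ℝ) ≤ X * N := by positivity
    have h2 : (ρ : ℝ) ≤ N := by linarith only [hρN, h1]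
    exact_mod_cast h2
  have hN0 : 0 < N := by omega
  have hN0r : (0 : ℝ) < N := by exact_mod_cast hN0
  -- the claims
  have c1 : Clg S (fun J F A => ∀ l < L + 1, ∀ r < N + 1, L₁ ≤ l →
      (a + 2 ≤ r ∨ r + K * B₂ * l ≤ a + 2) → r + B' * l ≤ ρ → Ch F i₁ ⌊h₁ * J⌋₊ A →
      Pls F (c / 4) N ρ A → GC F (c / 4) N l B' r A →
      ∀ (p : ℕ → ℕ → ℕ) (d : Dts F), d.OK i₁ N ρ K p A → Gap p r (B' * l) a →
      CH (Qa F A) (Sc F i₁ ((a + 2) * (J / N)) (r * (J / N)) K (own F N ρ d a)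
        (K * B₂ * l * (J / N)))
        (bxs F i₁ ((a + 2) * (J / N)) (r * (J / N)) K (own F N ρ d a) 0) ≤
        δ * ((K * B₂ * l * (J / N) : ℕ) : ℝ) ∧
      ∀ (w : ℕ) (H : Sl F → MvPolynomial (Fin (k + 1)) ℝ), w ≤ (a + 2) * (J / N) →
        (a + 2) * (J / N) ≤ w + q * (J / N) → (∀ s, (H s).totalDegree ≤ K) →
        (∀ ω, A ω → NearB F i₁ ((a + 2) * (J / N)) w (q * (J / N)) K
          (r * (J / N) + K * B₂ * l * (J / N)) (r * (J / N) + K * B₂ * l * (J / N))
          (1 + (mons (k + 1) K).card) (own F N ρ d a) H ω) →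
        Hfw F i₁ A ((a + 2) * (J / N)) w (q * (J / N)) K (r * (J / N))
          (K * B₂ * l * (J / N)) (own F N ρ d a) H (c / 4 / 4) κ π₀) := by
    refine Clg.all (L + 1) fun l _ => Clg.all (N + 1) fun r _ => Clg.cnd fun g1 => Clg.cnd
      fun g2 => Clg.cnd fun g3 => ?_
    exact h5 l g1 N (K * B₂ * l) (Nat.mul_le_mul_right _ hKB) le_rfl i₁ ρ r q a g2 haρ g3 hρN
  exact by
   have c2 := h1F (ι / (2 * N)) (by positivity)
   obtain ⟨J₂, hJ₂⟩ : ∃ J₂ : ℕ, J₂ = N * (X₀ + ⌈8 * Cs / η⌉₊ + 1) := ⟨_, rfl⟩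
   refine Clg.mono (J₂ := J₂) (c1.and c2) ?_
   rintro J hJ F A ⟨hc1', hlaw, hT⟩ hCh hPls hZr p d hd hgap hRp v hv1 hv2
   set u := J / N with hu
   have hu1 : X₀ + ⌈8 * Cs / η⌉₊ + 1 ≤ u := by
     rw [hu, Nat.le_div_iff_mul_le hN0, Nat.mul_comm, ← hJ₂]
     exact hJ
   have hu0 : 0 < u := by omega
   have hur : (0 : ℝ) < u := by exact_mod_cast hu0
   have hNu : N * u ≤ J := Nat.mul_div_le _ _
   have hJu : J < N * u + N := by
     have := Nat.lt_mul_div_succ J hN0
     rw [← hu, Nat.mul_add, Nat.mul_one] at this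
     exact this
   have hAp : ∀ ω, 0 < Qa F A ω → A ω := fun ω h => of_cond_pos h
   have hPe : 0 < Pe F.p A := pe_pos F.isLaw.nonneg hlaw
   -- the fine row
   obtain ⟨l, r₀, hl, hLl, hr1, hr2, hGC⟩ := hfn J F A N L R hPe hΛL hLR (by omega) hZr
   obtain ⟨r, hrr, hrY, hrB, hra, hGC'⟩ := fine_row (a := a) (M := K * B₂) (B' := B') hl hGC le_rfl
     hr2
   have hlL₁ : L₁ ≤ l := by
     have h1 : Λ * (L₁ + 1) ≤ Λ * l := hL.trans hLl
     have h2 := Nat.le_of_mul_le_mul_left h1 hΛ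
     omega
   have hBl : (B' + 2 * (K * B₂) + 1) * l + (B' + 2 * (K * B₂) + 1) * l ≤ L := by omega
   have hBl' : (B' + 2 * (K * B₂) + 1) * l = B' * l + 2 * (K * B₂ * l) + l := by ring
   have hB'l : B' * l = B₀ * l + ⌈D⌉₊ * B₂ * l + K * B₂ * l + 5 * l := by rw [hB']; ring
   have hlL : l ≤ L := by omega
   obtain ⟨Y, hY⟩ : ∃ Y : ℕ, Y = K * B₂ * l := ⟨_, rfl⟩
   exact by
    rw [← hY] at hrY hra hBl' hB'l
    have hPls' : Pls F (c / 4) N ρ A := fun p' h1 h2 => zr_mono (by linarith only [hc]) h1.le (hPls p' h1 h2)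
    have hLa : L ≤ a := hgap.1
    have hgap' : Gap p r (B' * l) a := by
      refine ⟨by omega, ?_⟩
      have h1 := hgap.2
      have h2 := hd.mo (a - L) (a - B' * l) (a - L) (a - B' * l) (by omega) (by omega) (by omega)
        le_rfl
      omega
    have hc3 := hc1' l (by omega) r (by omega) hlL₁ (by rw [← hY]; exact hra) (by omega) hCh hPls'
      hGC' p d hd hgap'
    rw [← hY] at hc3
    obtain ⟨hfr, hHfw⟩ := hc3
    -- the windows
    have haq' : (a + 2) * u ≤ v + q * u := by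
      have h1 : (a + 3) * u ≤ (w + q) * u := Nat.mul_le_mul_right _ haq
      nlinarith only [hv1, hu1, h1]
    have haN : a + 2 + Y ≤ N := by omega
    have haJ : (a + 2) * u + Y * u ≤ J := by
      have h1 : (a + 2 + Y) * u ≤ N * u := Nat.mul_le_mul_right _ haN
      nlinarith only [hNu, h1]
    have hva : v ≤ (a + 2) * u := by nlinarith only [hv2, hu1]
    have hrYR : r + Y ≤ R := hrY
    have hnear : ∀ w', v ≤ w' → w' ≤ (a + 2) * u → ∀ ω, A ω →
        NearB F i₁ ((a + 2) * u) w' (q * u) K (r * u + Y * u) (r * u + Y * u)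
          (1 + (mons (k + 1) K).card) (own F N ρ d a) (lab F (d.H a v) v w') ω := by
      intro w' h1 h2 ω hω
      have h3 := near_all hd (by rw [← hu]; omega) hwa haρ hv1 hv2 h1 (by omega)
        (q := q * u) (by rw [← hu]; exact haq') (R := r + Y) (by omega) ω hω
      rw [← hu, Nat.add_mul r Y u] at h3
      exact h3
    exact by
     obtain ⟨x, hx⟩ : ∃ x : ℕ, x = B₂ * l * u := ⟨_, rfl⟩
     have hKx : K * x = Y * u := by rw [hx, hY]; ring
     have hux : u ≤ x := by
       rw [hx]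
       exact Nat.le_mul_of_pos_left _ (Nat.mul_pos (by omega) hl)
     have hstr : Str F i₁ A ((a + 2) * u) v (q * u) K (r * u) (K * x) (own F N ρ d a) (d.H a v)
         (1 + (mons (k + 1) K).card) (c / 4 / 4) κ π₀ δ := by
       rw [hKx]
       exact
         { law := hlaw
           hva := hva
           hq := haq'
           hJ := haJ
           hG := fun ω _ => hd.dG _ _
           hH := hd.dH a v
           near := hnear
           hGl := fun ω ω' _ _ h1 h2 => own_line F N ρ d a h1 h2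
           fr := hfr
           h5 := fun w' h1 h2 => hHfw w' _ h2 (haq'.trans (Nat.add_le_add_right h1 _))
             (fun s => hd.dH a v _) (hnear w' h1 h2) }
     have hT' : (J : ℝ) * Real.log 2 - ι * x ≤ CH (Qa F A) F.T (fun ω => (F.l ω, F.Z ω)) := by
       refine le_trans ?_ hT
       have h1 : ι / (2 * N) * J ≤ ι * x := by
         have h2 : (J : ℝ) ≤ 2 * N * x := by
           have h3 : J ≤ 2 * N * x := by
             have h4 : N * u ≤ N * x := Nat.mul_le_mul_left _ hux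
             have h5 : N * 1 ≤ N * x := Nat.mul_le_mul_left _ (by omega)
             nlinarith only [hJu, h4, h5]
           exact_mod_cast h3
         calc ι / (2 * N) * J ≤ ι / (2 * N) * (2 * N * x) :=
               mul_le_mul_of_nonneg_left h2 (by positivity)
           _ = ι * x := by field_simp
       linarith only [h1]
     exact by
      have p1 := hpth J F i₁ A ((a + 2) * u) v (q * u) (r * u) x (d.H a v) (own F N ρ d a)
        (by omega) hstr hT'
      rw [hKx] at p1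
      -- the start
      have p2 := hsta J F i₁ (Qa F A) A N ρ q p d (r + Y) a w v hlaw hAp (by rw [← hu]; omega) hd hwa
        haρ hv1 hv2 (by rw [← hu]; omega) (by rw [← hu]; exact haq') (by omega)
      rw [← hu, Nat.add_mul r Y u] at p2
      -- the end
      have p3 := (h8 J F i₁ (Qa F A) ((a + 2) * u) v (q * u) (r * u + Y * u) ((R - (r + Y)) * u)
        (d.H a v) hlaw (hd.dH a v)).1
      have hRe : r * u + Y * u + (R - (r + Y)) * u = R * u := by
        rw [← Nat.add_mul, ← Nat.add_mul]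
        congr 1
        omega
      rw [hRe] at p3
      have hp0 := hlaw.nonneg
      have q1 := Pool.M5.PTH.link hp0
        (fun ω => st F i₁ N ρ q d (p a a) a ω) (ctx F i₁ ((a + 2) * u) v (q * u) (r * u + Y * u)
          (d.H a v)) (cx F i₁ N q d R a v) F.W
      have q2 : CH (Qa F A) (cx F i₁ N q d R a v)
          (fun ω => (ctx F i₁ ((a + 2) * u) v (q * u) (r * u + Y * u) (d.H a v) ω,
            (st F i₁ N ρ q d (p a a) a ω, F.W ω))) ≤
          CH (Qa F A) (ctx F i₁ ((a + 2) * u) v (q * u) (R * u) (d.H a v))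
            (ctx F i₁ ((a + 2) * u) v (q * u) (r * u + Y * u) (d.H a v)) := by
        refine CH_mono_cond hp0 ?_
        intro ω ω' _ _ h
        exact (Prod.ext_iff.1 h).1
      have q3 := Pool.M5.PTH.link hp0
        (fun ω => st F i₁ N ρ q d (p a a) a ω)
        (ctx F i₁ ((a + 2) * u) ((a + 2) * u) (q * u) (r * u + Y * u)
          (lab F (d.H a v) v ((a + 2) * u)))
        (ctx F i₁ ((a + 2) * u) v (q * u) (r * u + Y * u) (d.H a v)) F.W
      exact by
       have q4 : CH (Qa F A) (ctx F i₁ ((a + 2) * u) v (q * u) (r * u + Y * u) (d.H a v))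
           (fun ω => (ctx F i₁ ((a + 2) * u) ((a + 2) * u) (q * u) (r * u + Y * u)
             (lab F (d.H a v) v ((a + 2) * u)) ω, (st F i₁ N ρ q d (p a a) a ω, F.W ω))) ≤
           CH (Qa F A) (ctx F i₁ ((a + 2) * u) v (q * u) (r * u + Y * u) (d.H a v))
           (fun ω => (ctx F i₁ ((a + 2) * u) ((a + 2) * u) (q * u) (r * u + Y * u)
             (lab F (d.H a v) v ((a + 2) * u)) ω, F.W ω)) := by
         refine CH_mono_cond hp0 ?_
         intro ω ω' _ _ h
         simp only [Prod.mk.injEq] at h ⊢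
         tauto
       -- the sum
       have s1 : C8 * (((R - (r + Y)) * u : ℕ) : ℝ) ≤ ⌈C8⌉₊ * L * u := by
         have h1 : (R - (r + Y)) * u ≤ L * u := Nat.mul_le_mul_right _ (by omega)
         have h2 : (((R - (r + Y)) * u : ℕ) : ℝ) ≤ L * u := by exact_mod_cast h1
         calc C8 * (((R - (r + Y)) * u : ℕ) : ℝ) ≤ ⌈C8⌉₊ * (L * u) :=
               mul_le_mul (Nat.le_ceil _) h2 (by positivity) (by positivity)
           _ = ⌈C8⌉₊ * L * u := by ring
       have s2 : D * x ≤ L * u := by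
         have h1 : ⌈D⌉₊ * B₂ * l ≤ L := by omega
         have h2 : (⌈D⌉₊ : ℝ) * B₂ * l ≤ L := by exact_mod_cast h1
         have h3 : (x : ℝ) = B₂ * l * u := by rw [hx]; push_cast; ring
         have h4 : D * (B₂ * l) ≤ L := by
           calc D * (B₂ * l) ≤ ⌈D⌉₊ * (B₂ * l) :=
                 mul_le_mul_of_nonneg_right (Nat.le_ceil _) (by positivity)
             _ ≤ L := by linarith only [h2]
         rw [h3]
         calc D * (B₂ * l * u) = D * (B₂ * l) * u := by ring
           _ ≤ L * u := mul_le_mul_of_nonneg_right h4 hur.le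
       have s3 : η / 8 * ((((a + 2) * u : ℕ) : ℝ) - v) ≤ η / 8 * (N * u) := by
         refine mul_le_mul_of_nonneg_left ?_ (by positivity)
         have h1 : (a + 2) * u ≤ N * u := Nat.mul_le_mul_right _ (by omega)
         have h2 : (((a + 2) * u : ℕ) : ℝ) ≤ N * u := by exact_mod_cast h1
         have h3 : (0 : ℝ) ≤ v := Nat.cast_nonneg _
         linarith only [h2]
       exact by
        have s4 : Cs ≤ η / 8 * (N * u) := by
          have h1 : 8 * Cs / η ≤ u := (Nat.le_ceil _).trans (by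
            have : ⌈8 * Cs / η⌉₊ ≤ u := by omega
            exact_mod_cast this)
          rw [div_le_iff₀ hη] at h1
          have h2 : (u : ℝ) ≤ N * u := by
            have : 1 * u ≤ N * u := Nat.mul_le_mul_right _ hN0
            have : u ≤ N * u := by omega
            exact_mod_cast this
          nlinarith only [h1, hη, h2]
        have s5 : 0 ≤ η * (N * u) := by positivity
        have s6 : (((⌈C8⌉₊ + 1 : ℕ) : ℝ) * L + η * N) * ((u : ℕ) : ℝ) =
            ⌈C8⌉₊ * L * u + L * u + η * (N * u) := by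
          push_cast
          ring
        rw [s6]
        linarith only [hCs, p1, p2, p3, q1, q2, q3, q4, s1, s2, s3, s4]

end Pool.PTH
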