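import Pool.Agent.H33.PTH.Vst
import Pool.Agent.H7.SLF.Base

/-!
# The static fullness: preparations
-/

set_option autoImplicit false

namespace Pool.PTH

open MvPolynomial Finset Real
open Pool.Agent.H49.Ent Pool.Agent.H32.Dense Pool.STK Pool.KA Pool.KSAT Pool.K2S Pool.PB
open Pool.SLO Pool.SLP Pool.KAF
open Pool.SLF (Sl Dts Qa Gap GC own st)

variable {k J : ℕ}

/-- The label of the window `v` is near the own sheet in all smaller windows. -/
theorem near_all {F : Fam (k + 1) J} {d : Dts F} {i₁ : Fin (k + 1)} {N ρ K : ℕ} {p : ℕ → ℕ → ℕ}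
    {A : F.Ω → Prop} (h : d.OK i₁ N ρ K p A) (hu : 1 ≤ J / N) {a w₀ v w q R : ℕ} (hwa : w₀ ≤ a)
    (ha : a ≤ ρ) (hv : w₀ * (J / N) ≤ v) (hv' : v ≤ a * (J / N)) (hvw : v ≤ w) (hwJ : w ≤ J)
    (hq : (a + 2) * (J / N) ≤ v + q) (hR : R ≤ p a w₀) (ω : F.Ω) (hω : A ω) :
    NearB F i₁ ((a + 2) * (J / N)) w q K (R * (J / N)) (R * (J / N))
      (1 + (mons (k + 1) K).card) (own F N ρ d a) (lab F (d.H a v) v w) ω := by
  intro b hb hb1
  have h1 := h.tb a ha w₀ hwa v hv hv' ω hω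
    (sb i₁ ((a + 2) * (J / N)) w (cw F i₁ ((a + 2) * (J / N)) w ω) (dq F i₁ q ω) b)
    (fun j => (Pool.SLF.sb_near F i₁ hwJ (by omega) ω hb hb1 j).trans (Pool.SLF.two_le_ball hu))
  have e1 : eval b (plb F i₁ ((a + 2) * (J / N)) w q ω (own F N ρ d a ω)) =
      eval (sb i₁ ((a + 2) * (J / N)) w (cw F i₁ ((a + 2) * (J / N)) w ω) (dq F i₁ q ω) b)
        (own F N ρ d a ω) := by
    unfold plb
    rw [eval_pull]
  have e2 : eval b (plb F i₁ ((a + 2) * (J / N)) w q ω (d.H a v (slam F v ω))) =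
      eval (sb i₁ ((a + 2) * (J / N)) w (cw F i₁ ((a + 2) * (J / N)) w ω) (dq F i₁ q ω) b)
        (d.H a v (slam F v ω)) := by
    unfold plb
    rw [eval_pull]
  have e3 : Rc F i₁ ((a + 2) * (J / N)) w q K (R * (J / N)) (lab F (d.H a v) v w) ω =
      rdp K (R * (J / N)) (plb F i₁ ((a + 2) * (J / N)) w q ω (d.H a v (slam F v ω))) := by
    unfold Rc
    rw [lab_slam F (d.H a v) hvw hwJ]
  have h2 := abs_rdp_le (K := K) (P := R * (J / N))
    (G := plb F i₁ ((a + 2) * (J / N)) w q ω (d.H a v (slam F v ω)))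
    ((totalDegree_pull_le _ _ _ _ _ _).trans (h.dH a v _)) (b := b) (fun i => by
      rw [abs_of_nonneg (hb i).1]
      exact (hb i).2)
  have h3 : (1 : ℝ) / 2 ^ (p a w₀ * (J / N)) ≤ 1 / 2 ^ (R * (J / N)) :=
    one_div_le_one_div_of_le (by positivity)
      (pow_le_pow_right₀ (by norm_num) (Nat.mul_le_mul_right _ hR))
  rw [e3, add_div]
  rw [← e1, ← e2] at h1
  refine le_trans (abs_sub_le _ (eval b (plb F i₁ ((a + 2) * (J / N)) w q ω
    (d.H a v (slam F v ω)))) _) ?_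
  exact add_le_add (h1.trans h3) h2

/-- The own sheet is a function of the line and the time. -/
theorem own_line (F : Fam (k + 1) J) (N ρ : ℕ) (d : Dts F) (a : ℕ) {ω ω' : F.Ω}
    (h : F.l ω = F.l ω') (hW : F.W ω = F.W ω') : own F N ρ d a ω = own F N ρ d a ω' := by
  have hu : F.u ω = F.u ω' := (Prod.ext_iff.1 h).1
  have hd : F.d ω = F.d ω' := (Prod.ext_iff.1 h).2
  have hT : F.T ω = F.T ω' := (Prod.ext_iff.1 hW).1
  have hx : F.x ω = F.x ω' := by
    funext i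
    unfold Fam.x Fam.t
    rw [hu, hd, hT]
  unfold own ptr
  rw [hW]
  congr 1
  unfold Fam.X
  rw [hx]

theorem pe_pos {Ω : Type} [Fintype Ω] {p : Ω → ℝ} (hp0 : ∀ ω, 0 ≤ p ω) {A : Ω → Prop}
    (h : IsLaw (Pool.Agent.H49.Ent.cond p A True)) : 0 < Pe p A := by
  classical
  by_contra hcon
  have h0 : Pe p A = 0 := le_antisymm (not_lt.1 hcon) (by
    rw [Pe_eq]
    exact Finset.sum_nonneg fun ω _ => by
      split_ifs
      · exact hp0 ω
      · exact le_rfl)
  rw [Pe_eq] at h0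
  have h1 := (Finset.sum_eq_zero_iff_of_nonneg (fun ω _ => by
      split_ifs
      · exact hp0 ω
      · exact le_rfl)).1 h0
  have h2 : ∀ ω, Pool.Agent.H49.Ent.cond p A True ω = 0 := by
    intro ω
    by_cases hA : A ω
    · rw [cond_of_eq (by simp [hA])]
      have h3 := h1 ω (Finset.mem_univ _)
      rw [if_pos hA] at h3
      rw [h3, zero_div]
    · exact cond_of_ne (by simp [hA])
  have h3 := h.sum_one
  rw [Finset.sum_eq_zero fun ω _ => h2 ω] at h3
  exact zero_ne_one h3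

/-- Fewer digits: the constant of `Zm` decreases. -/
theorem zr_mono {m : ℕ} {F : Fam m J} {c c' : ℝ} (hc : c' ≤ c) {N p₁ p₂ : ℕ} (h12 : p₁ ≤ p₂)
    {A : F.Ω → Prop} (h : Zr F c N p₁ p₂ A) : Zr F c' N p₁ p₂ A := by
  unfold Zr Zm at h ⊢
  refine h.trans (mul_le_mul_of_nonneg_right (by linarith) ?_)
  have h1 : ((p₁ * (J / N) : ℕ) : ℝ) ≤ ((p₂ * (J / N) : ℕ) : ℝ) := by
    exact_mod_cast Nat.mul_le_mul_right _ h12
  have h2 : 0 ≤ Real.log 2 := Real.log_nonneg (by norm_num)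
  exact mul_nonneg (by linarith) h2

/-- The shift of a good row. -/
theorem gc_shift {m : ℕ} {F : Fam m J} {c : ℝ} {N L B B' R j₀ : ℕ} {A : F.Ω → Prop}
    (h : GC F c N L B R A) (hB : B' + j₀ ≤ B) : GC F c N L B' (R + j₀ * L) A := by
  obtain ⟨h1, h2⟩ := h
  have e0 : B' * L + j₀ * L ≤ B * L := by
    rw [← add_mul]
    exact Nat.mul_le_mul_right _ hB
  refine ⟨by omega, fun j hj => ?_⟩
  have h3 := h2 (j + j₀ + (B - B')) (by omega)
  have e3 : (B - B') * L = B * L - B' * L := Nat.sub_mul _ _ _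
  have e1 : R + (j + j₀ + (B - B')) * L - B * L = R + j₀ * L + j * L - B' * L := by
    have : (j + j₀ + (B - B')) * L = j * L + j₀ * L + (B - B') * L := by ring
    omega
  have e2 : R + (j + j₀ + (B - B') + 1) * L - B * L = R + j₀ * L + (j + 1) * L - B' * L := by
    have : (j + j₀ + (B - B') + 1) * L = (j + 1) * L + j₀ * L + (B - B') * L := by ring
    omega
  rw [e1, e2] at h3
  exact h3

end Pool.PTH
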