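import Pool.Agent.H33.PTH.Vis
import Pool.Agent.H41.PTH.DF
import Pool.Agent.H41.PTH.ALV
import Pool.Agent.H41.SLF.Fnr
import Pool.Agent.H48.PTH.D4
import Pool.Agent.H48.M5.L1
import Pool.Agent.H59.PTH.Sta
import Pool.Agent.H25.SLF.H1F

/-!
# The static fullness from the rows of the heights
-/

set_option autoImplicit false

namespace Pool.PTH

open Pool.PB

/-- **(VIS)** from **(H5W)**. -/
theorem vis_of_h5w {k : ℕ} {S : FCl (k + 1)} (h5 : H5W S) : Pool.SLF.VIS S :=
  vis_thm Pool.M5.n1 (fun K C0 _ => d4_thm _ K C0) (fun K C0 _ => df_thm k K C0) alv_thm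
    (fun K => sta_thm k K) h5 (Pool.SLF.h1f_thm S) (Pool.SLF.fnr_thm _)

end Pool.PTH
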