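import Pool.Agent.H33.PTH.PE
import Pool.Agent.H33.PTH.PF
import Pool.Agent.H71.SLP.Stmts

/-!
# The path of windows in families: the statements used by `VIS`
-/

set_option autoImplicit false

namespace Pool.PTH

open MvPolynomial Finset Real
open Pool.Agent.H49.Ent Pool.Agent.H32.Dense Pool.STK Pool.KA Pool.KSAT Pool.K2S Pool.PB
open Pool.SLO Pool.SLP Pool.KAF
open Pool.SLF (Sl Dts Qa Gap GC own st)

variable {k : ℕ}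

/-- **(HF2)** The rows of the heights are not full if the cells are smaller than the precision
(`e + X ≤ a`): then the height of the sheet is the passive coordinate. -/
def HF2 (m K : ℕ) (L C0 c κ : ℝ) : Prop :=
  ∃ (δ : ℝ) (X₀ : ℕ), 0 < δ ∧ ∀ (J : ℕ) (F : Fam m J) (i₁ : Fin m)
    (A : F.Ω → Prop) (a w q e X : ℕ) (G : F.Ω → MvPolynomial (Fin m) ℝ)
    (H : ((Fin m → ℝ) × (Fin m → ℝ)) × F.ζ × ℕ → MvPolynomial (Fin m) ℝ) (π₀ : ℝ), X₀ ≤ X →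
    0 < π₀ → IsLaw (Pool.Agent.H49.Ent.cond F.p A True) → e + X ≤ a → a ≤ J →
    (∀ ω, A ω → (G ω).totalDegree ≤ K) →
    (∀ ω, A ω → ∀ b : Fin m → ℝ, (∀ j, |b j - bp F i₁ ω j| ≤ 2 / 2 ^ a) →
      ∀ j, |eval b (pderiv j (G ω))| ≤ L) →
    (∀ ω, A ω → |F.x ω i₁ - eval (bp F i₁ ω) (G ω)| ≤ 1 / 2 ^ (e + X)) →
    (∀ j : ℕ, (j + 1) * ⌊κ * X⌋₊ ≤ X → ∀ B : F.Ω → Prop, (∀ ω, B ω → A ω) →
      π₀ ≤ Pr (Pool.Agent.H49.Ent.cond F.p A True) {ω | B ω} →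
      CH (Pool.Agent.H49.Ent.cond F.p B True) (F.X (e + j * ⌊κ * X⌋₊ + ⌊κ * X⌋₊))
        (fun ω => (F.X (e + j * ⌊κ * X⌋₊) ω, F.W ω)) ≤ (m - c) * (⌊κ * X⌋₊ * Real.log 2)) →
    (∀ j : ℕ, (j + 1) * ⌊κ * X⌋₊ ≤ X → ∀ B : F.Ω → Prop, (∀ ω, B ω → A ω) →
      π₀ ≤ Pr (Pool.Agent.H49.Ent.cond F.p A True) {ω | B ω} →
      ((m : ℝ) - 1) * (⌊κ * X⌋₊ * Real.log 2) - δ * X ≤
        CH (Pool.Agent.H49.Ent.cond F.p B True) (tdg i₁ (e + j * ⌊κ * X⌋₊ + ⌊κ * X⌋₊) F.x)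
          (fun ω => (F.X (e + j * ⌊κ * X⌋₊) ω, F.W ω))) →
    w ≤ a → a ≤ w + q → (∀ s, (H s).totalDegree ≤ K) →
    (∀ ω, A ω → NearB F i₁ a w q K (e + X) (e + X) C0 G H ω) →
    Hfw F i₁ A a w q K e X G H (c / 2) κ π₀

/-- **(H5W)** One sheet in every static box, and the rows of the heights are not full on all large
events, in all windows, for all labels near the own sheet: the cells are larger or smaller than
the precisions. -/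
def H5W (S : FCl (k + 1)) : Prop :=
  ∀ (c h₁ X : ℝ) (K : ℕ) (κ p₀ ε C0 : ℝ), 0 < c → c ≤ 1 → 0 < h₁ → 0 < X → 1 ≤ K → 0 < κ →
    κ ≤ 1 → 0 < p₀ → 0 < ε → 0 ≤ C0 →
    ∃ B₂ : ℕ, 1 ≤ B₂ ∧ ∀ B₁ ≥ B₂, ∃ B₀ : ℕ, ∀ B ≥ B₀, ∃ L₁ : ℕ, ∀ L ≥ L₁, ∀ N Y : ℕ,
    B₂ * L ≤ Y → Y ≤ B₁ * L →
    ∀ (i₁ : Fin (k + 1)) (ρ R q a : ℕ), (a + 2 ≤ R ∨ R + Y ≤ a + 2) → a ≤ ρ →
    R + B * L ≤ ρ → (ρ : ℝ) + X * N ≤ N →
    Clg S (fun J F A => Ch F i₁ ⌊h₁ * J⌋₊ A → Pls F c N ρ A → GC F c N L B R A →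
      ∀ (p : ℕ → ℕ → ℕ) (d : Dts F), d.OK i₁ N ρ K p A → Gap p R (B * L) a →
      CH (Qa F A) (Sc F i₁ ((a + 2) * (J / N)) (R * (J / N)) K (own F N ρ d a) (Y * (J / N)))
        (bxs F i₁ ((a + 2) * (J / N)) (R * (J / N)) K (own F N ρ d a) 0) ≤
        ε * ((Y * (J / N) : ℕ) : ℝ) ∧
      ∀ (w : ℕ) (H : Sl F → MvPolynomial (Fin (k + 1)) ℝ), w ≤ (a + 2) * (J / N) →
        (a + 2) * (J / N) ≤ w + q * (J / N) → (∀ s, (H s).totalDegree ≤ K) →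
        (∀ ω, A ω → NearB F i₁ ((a + 2) * (J / N)) w (q * (J / N)) K
          (R * (J / N) + Y * (J / N)) (R * (J / N) + Y * (J / N)) C0 (own F N ρ d a) H ω) →
        Hfw F i₁ A ((a + 2) * (J / N)) w (q * (J / N)) K (R * (J / N)) (Y * (J / N))
          (own F N ρ d a) H (c / 4) κ p₀)

/-- **(STA)** The record of the window of the length of the radius is a function of the static
record, the time and boundedly many values. -/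
def STA (k K : ℕ) : Prop := ∃ C : ℝ, 0 ≤ C ∧ ∀ (J : ℕ) (F : Fam (k + 1) J) (i₁ : Fin (k + 1))
  (P : F.Ω → ℝ) (A : F.Ω → Prop) (N ρ q : ℕ) (p : ℕ → ℕ → ℕ) (d : Dts F) (R a w v : ℕ),
  IsLaw P → (∀ ω, 0 < P ω → A ω) → 1 ≤ J / N → d.OK i₁ N ρ K p A → w ≤ a → a ≤ ρ →
  w * (J / N) ≤ v → v ≤ a * (J / N) → (a + 2) * (J / N) ≤ J →
  (a + 2) * (J / N) ≤ v + q * (J / N) → R ≤ p a w →
  CH P (ctx F i₁ ((a + 2) * (J / N)) ((a + 2) * (J / N)) (q * (J / N)) (R * (J / N))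
    (lab F (d.H a v) v ((a + 2) * (J / N)))) (fun ω => (st F i₁ N ρ q d (p a a) a ω, F.W ω)) ≤ C

end Pool.PTH
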